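import Mathlib

/-!
# Inverse of a primitive of a positive continuous function
-/

set_option autoImplicit false
open MeasureTheory Set Filter
open scoped Topology Interval

namespace Pool.Agent.X166.LT

theorem prim_hasDerivAt {W : ℝ → ℝ} (hW : Continuous W) (x0 x : ℝ) :
    HasDerivAt (fun y => ∫ t in x0..y, W t) (W x) x :=
  intervalIntegral.integral_hasDerivAt_right (hW.intervalIntegrable _ _)
    (hW.stronglyMeasurableAtFilter _ _) hW.continuousAt

theorem prim_sub {W : ℝ → ℝ} (hW : Continuous W) (x0 x y : ℝ) :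
    (∫ t in x0..y, W t) - (∫ t in x0..x, W t) = ∫ t in x..y, W t :=
  intervalIntegral.integral_interval_sub_left (hW.intervalIntegrable _ _)
    (hW.intervalIntegrable _ _)

theorem prim_ge {W : ℝ → ℝ} (hW : Continuous W) {m : ℝ} (hWm : ∀ x, m ≤ W x) {x y : ℝ}
    (hxy : x ≤ y) : m * (y - x) ≤ ∫ t in x..y, W t := by
  have h : ∫ _ in x..y, m = m * (y - x) := by
    rw [intervalIntegral.integral_const, smul_eq_mul, mul_comm]
  rw [← h]
  exact intervalIntegral.integral_mono_on hxy (by simp) (hW.intervalIntegrable _ _)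
    (fun t _ => hWm t)

theorem prim_strictMono {W : ℝ → ℝ} (hW : Continuous W) (hpos : ∀ x, 0 < W x) (x0 : ℝ) :
    StrictMono (fun y => ∫ t in x0..y, W t) := by
  intro x y hxy
  have h := prim_sub hW x0 x y
  have h2 : 0 < ∫ t in x..y, W t :=
    intervalIntegral.intervalIntegral_pos_of_pos (hW.intervalIntegrable _ _) hpos hxy
  simp only
  linarith

theorem exists_inv (W : ℝ → ℝ) (hW : Continuous W) (m : ℝ) (hm : 0 < m) (hWm : ∀ x, m ≤ W x)
    (x0 : ℝ) :
    ∃ q : ℝ → ℝ, Continuous q ∧ StrictMono q ∧ (∀ x, q (∫ t in x0..x, W t) = x) ∧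
      (∀ y, ∫ t in x0..(q y), W t = y) ∧ ∀ y, HasDerivAt q (W (q y))⁻¹ y := by
  set P : ℝ → ℝ := fun y => ∫ t in x0..y, W t with hP
  have hpos : ∀ x, 0 < W x := fun x => hm.trans_le (hWm x)
  have hmono : StrictMono P := prim_strictMono hW hpos x0
  have hd : ∀ x, HasDerivAt P (W x) x := fun x => prim_hasDerivAt hW x0 x
  have hcont : Continuous P := continuous_iff_continuousAt.2 fun x => (hd x).continuousAt
  have hsurj : Function.Surjective P := by
    apply hcont.surjective
    · have h1 : Tendsto (fun x : ℝ => m * (x - x0)) atTop atTop := by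
        apply Tendsto.const_mul_atTop hm
        exact tendsto_atTop_add_const_right _ _ tendsto_id
      refine tendsto_atTop_mono' _ ?_ h1
      filter_upwards [eventually_ge_atTop x0] with x hx
      exact prim_ge hW hWm hx
    · have h1 : Tendsto (fun x : ℝ => m * (x - x0)) atBot atBot := by
        apply Tendsto.const_mul_atBot hm
        exact tendsto_atBot_add_const_right _ _ tendsto_id
      refine tendsto_atBot_mono' _ ?_ h1
      filter_upwards [eventually_le_atBot x0] with x hx
      have h2 := prim_ge hW hWm hx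
      have h3 : P x = -∫ t in x..x0, W t := intervalIntegral.integral_symm _ _
      rw [h3]
      linarith
  let e : ℝ ≃o ℝ := hmono.orderIsoOfSurjective P hsurj
  have he : ∀ x, e x = P x := fun x => rfl
  have h1 : ∀ x, e.symm (P x) = x := fun x => by rw [← he]; exact e.symm_apply_apply x
  have h2 : ∀ y, P (e.symm y) = y := fun y => by rw [← he]; exact e.apply_symm_apply y
  refine ⟨e.symm, e.symm.continuous, e.symm.strictMono, h1, h2, fun y => ?_⟩
  exact HasDerivAt.of_local_left_inverse e.symm.continuous.continuousAt (hd _) (hpos _).ne'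
    (Eventually.of_forall h2)

end Pool.Agent.X166.LT
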