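import Pool.Agent.X166.LT.T0

/-!
# Logarithmic Sobolev inequality on an interval by monotone transport
-/

set_option autoImplicit false
open MeasureTheory Set Filter
open scoped Topology Interval

namespace Pool.Agent.X166.LT

/-- the pointwise inequality behind the transport proof -/
theorem pointwise {c gx wx wy g1 u d : ℝ} (hc : 0 < c) (hg : 0 < gx) (hwx : 0 < wx) (hwy : 0 < wy)
    (h : Real.log wy ≤ Real.log wx + u * d - c / 2 * d ^ 2) :
    gx * Real.log gx * wx ≤ ((g1 * wx + gx * (wx * u)) * d + gx * wx * (wy⁻¹ * (gx * wx) - 1)) +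
      1 / (2 * c) * (g1 ^ 2 / gx * wx) := by
  have hr : 0 < wy⁻¹ * (gx * wx) := by positivity
  have h1 : Real.log (wy⁻¹ * (gx * wx)) = Real.log gx + Real.log wx - Real.log wy := by
    rw [Real.log_mul (by positivity) (by positivity), Real.log_mul hg.ne' hwx.ne', Real.log_inv]
    ring
  have h2 := Real.log_le_sub_one_of_pos hr
  rw [h1] at h2
  have h3 : Real.log gx ≤ (wy⁻¹ * (gx * wx) - 1) + u * d - c / 2 * d ^ 2 := by linarith
  have h4 : gx * wx * Real.log gx ≤
      gx * wx * ((wy⁻¹ * (gx * wx) - 1) + u * d - c / 2 * d ^ 2) :=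
    mul_le_mul_of_nonneg_left h3 (by positivity)
  have h5 : 0 ≤ wx / (2 * c * gx) * (c * gx * d + g1) ^ 2 := by positivity
  have h6 : wx / (2 * c * gx) * (c * gx * d + g1) ^ 2 =
      c / 2 * gx * wx * d ^ 2 + g1 * wx * d + 1 / (2 * c) * (g1 ^ 2 / gx * wx) := by
    field_simp
    ring
  nlinarith [h4, h5, h6]

theorem transport {a b c : ℝ} (hab : a < b) (hc : 0 < c) {w U g g' : ℝ → ℝ}
    (hw : ContinuousOn w (Icc a b)) (hwp : ∀ x ∈ Icc a b, 0 < w x)
    (hU : ContinuousOn U (Icc a b))
    (hwd : ∀ x ∈ Ioo a b, HasDerivAt w (w x * U x) x)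
    (hconv : ∀ x ∈ Ioo a b, ∀ y ∈ Icc a b,
      Real.log (w y) ≤ Real.log (w x) + U x * (y - x) - c / 2 * (y - x) ^ 2)
    (hg : ContinuousOn g (Icc a b)) (hgp : ∀ x ∈ Icc a b, 0 < g x)
    (hg' : ContinuousOn g' (Icc a b)) (hgd : ∀ x ∈ Ioo a b, HasDerivAt g (g' x) x)
    (hnorm : ∫ x in a..b, g x * w x = ∫ x in a..b, w x) :
    ∫ x in a..b, g x * Real.log (g x) * w x ≤
      1 / (2 * c) * ∫ x in a..b, g' x ^ 2 / g x * w x := by
  -- clamped functions
  set cl : ℝ → ℝ := fun x => max a (min b x) with hcl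
  have hclc : Continuous cl := by fun_prop
  have hclm : ∀ x, cl x ∈ Icc a b := fun x =>
    ⟨le_max_left _ _, max_le hab.le (min_le_left _ _)⟩
  have hcle : ∀ x ∈ Icc a b, cl x = x := by
    intro x hx
    simp only [hcl]
    rw [min_eq_right hx.2, max_eq_right hx.1]
  set W : ℝ → ℝ := fun x => w (cl x) with hW
  have hWc : Continuous W := hw.comp_continuous hclc hclm
  set Z : ℝ → ℝ := fun x => g (cl x) * w (cl x) with hZ
  have hZc : Continuous Z := (hg.mul hw).comp_continuous hclc hclm
  have hZp : ∀ x, 0 < Z x := fun x => mul_pos (hgp _ (hclm x)) (hwp _ (hclm x))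
  obtain ⟨x0, hx0, hmin⟩ := isCompact_Icc.exists_isMinOn (nonempty_Icc.2 hab.le) hw
  obtain ⟨q, hqc, hqm, hq1, hq2, hqd⟩ := exists_inv W hWc (w x0) (hwp x0 hx0)
    (fun x => hmin (hclm x)) a
  set G : ℝ → ℝ := fun x => ∫ t in a..x, Z t with hG
  have hGd : ∀ x, HasDerivAt G (Z x) x := fun x => prim_hasDerivAt hZc a x
  have hGc : Continuous G := continuous_iff_continuousAt.2 fun x => (hGd x).continuousAt
  have hGm : StrictMono G := prim_strictMono hZc hZp a
  set T : ℝ → ℝ := fun x => q (G x) with hT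
  have hTc : Continuous T := hqc.comp hGc
  have hTm : StrictMono T := hqm.comp hGm
  have hIoo : ∀ x ∈ Icc a b, cl x = x := hcle
  have hTa : T a = a := by
    have h1 : G a = ∫ t in a..a, W t := by simp [hG]
    simp only [hT]
    rw [h1, hq1]
  have hTb : T b = b := by
    have h1 : G b = ∫ t in a..b, W t := by
      have e1 : G b = ∫ x in a..b, g x * w x := by
        simp only [hG]
        apply intervalIntegral.integral_congr
        intro x hx
        rw [uIcc_of_le hab.le] at hx
        simp only [hZ, hcle x hx]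
      have e2 : ∫ t in a..b, W t = ∫ x in a..b, w x := by
        apply intervalIntegral.integral_congr
        intro x hx
        rw [uIcc_of_le hab.le] at hx
        simp only [hW, hcle x hx]
      rw [e1, e2, hnorm]
    simp only [hT]
    rw [h1, hq1]
  have hTi : ∀ x ∈ Ioo a b, T x ∈ Ioo a b := by
    intro x hx
    constructor
    · rw [← hTa]; exact hTm hx.1
    · rw [← hTb]; exact hTm hx.2
  have hTI : ∀ x ∈ Icc a b, T x ∈ Icc a b := by
    intro x hx
    constructor
    · rw [← hTa]; exact hTm.monotone hx.1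
    · rw [← hTb]; exact hTm.monotone hx.2
  have hTd : ∀ x ∈ Ioo a b, HasDerivAt T ((w (T x))⁻¹ * (g x * w x)) x := by
    intro x hx
    have h1 := (hqd (G x)).comp x (hGd x)
    have h2 : W (q (G x)) = w (T x) := by
      simp only [hW]
      rw [hcle _ (hTI x (Ioo_subset_Icc_self hx))]
    have h3 : Z x = g x * w x := by
      simp only [hZ]
      rw [hcle _ (Ioo_subset_Icc_self hx)]
    rw [h2, h3] at h1
    exact h1
  -- the primitive
  set H : ℝ → ℝ := fun x => g x * w x * (T x - x) with hH
  set Hd : ℝ → ℝ := fun x => (g' x * w x + g x * (w x * U x)) * (T x - x) +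
    g x * w x * ((w (T x))⁻¹ * (g x * w x) - 1) with hHd
  have hwT : ContinuousOn (fun x => w (T x)) (Icc a b) := hw.comp hTc.continuousOn hTI
  have hwTi : ContinuousOn (fun x => (w (T x))⁻¹) (Icc a b) :=
    hwT.inv₀ (fun x hx => (hwp _ (hTI x hx)).ne')
  have hid : ContinuousOn (fun x : ℝ => T x - x) (Icc a b) :=
    (hTc.sub continuous_id).continuousOn
  have hHdc : ContinuousOn Hd (Icc a b) := by
    apply ContinuousOn.add
    · exact ((hg'.mul hw).add (hg.mul (hw.mul hU))).mul hid
    · exact (hg.mul hw).mul ((hwTi.mul (hg.mul hw)).sub continuousOn_const)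
  have hHc : ContinuousOn H (Icc a b) := (hg.mul hw).mul hid
  have hHder : ∀ x ∈ Ioo a b, HasDerivAt H (Hd x) x := by
    intro x hx
    have h1 := ((hgd x hx).mul (hwd x hx)).mul ((hTd x hx).sub (hasDerivAt_id x))
    exact h1
  have hint : IntervalIntegrable Hd volume a b := by
    apply ContinuousOn.intervalIntegrable
    rw [uIcc_of_le hab.le]; exact hHdc
  have hzero : ∫ x in a..b, Hd x = 0 := by
    rw [intervalIntegral.integral_eq_sub_of_hasDerivAt_of_le hab.le hHc hHder hint]
    simp only [hH]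
    rw [hTa, hTb]
    ring
  have hF : ContinuousOn (fun x => g' x ^ 2 / g x * w x) (Icc a b) :=
    ((hg'.pow 2).div hg (fun x hx => (hgp x hx).ne')).mul hw
  have hL : ContinuousOn (fun x => g x * Real.log (g x) * w x) (Icc a b) :=
    (hg.mul (hg.log (fun x hx => (hgp x hx).ne'))).mul hw
  have hFi : IntervalIntegrable (fun x => 1 / (2 * c) * (g' x ^ 2 / g x * w x)) volume a b := by
    apply ContinuousOn.intervalIntegrable
    rw [uIcc_of_le hab.le]; exact continuousOn_const.mul hF
  have hLi : IntervalIntegrable (fun x => g x * Real.log (g x) * w x) volume a b := by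
    apply ContinuousOn.intervalIntegrable
    rw [uIcc_of_le hab.le]; exact hL
  have key : ∫ x in a..b, g x * Real.log (g x) * w x ≤
      ∫ x in a..b, (Hd x + 1 / (2 * c) * (g' x ^ 2 / g x * w x)) := by
    apply intervalIntegral.integral_mono_on_of_le_Ioo hab.le hLi (hint.add hFi)
    intro x hx
    have hx' := Ioo_subset_Icc_self hx
    exact pointwise hc (hgp x hx') (hwp x hx') (hwp _ (hTI x hx')) (hconv x hx _ (hTI x hx'))
  rw [intervalIntegral.integral_add hint hFi, hzero, zero_add,
    intervalIntegral.integral_const_mul] at key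
  exact key

end Pool.Agent.X166.LT
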