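import Pool.Agent.X166.LT.T9

/-!
# The tilt has a large variance; existence of parameters
-/

set_option autoImplicit false
set_option linter.unusedSectionVars false
set_option linter.unusedVariables false
open MeasureTheory Set Filter
open scoped Topology Interval ENNReal Pointwise

namespace Pool.Agent.X166.LT

variable {a κ L : ℝ} {N : ℕ}

/-- the integrand of `Hv` -/
noncomputable def wv (a v x : ℝ) : ℝ := Real.exp (-(v * x ^ 2)) * W a x

theorem wv_cont (a v : ℝ) : Continuous (wv a v) := by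
  unfold wv
  exact (by fun_prop : Continuous fun x : ℝ => Real.exp (-(v * x ^ 2))).mul (W_cont a)

theorem wv_pos (a v x : ℝ) : 0 < wv a v x := mul_pos (Real.exp_pos _) (W_pos a x)

theorem wv_neg (a v x : ℝ) : wv a v (-x) = wv a v x := by
  unfold wv
  rw [W_neg, neg_sq]

theorem wv_anti {v : ℝ} (hv : 0 ≤ v) {x y : ℝ} (hx : 0 ≤ x) (hxy : x ≤ y) :
    wv a v y ≤ wv a v x := by
  unfold wv
  have h1 : Real.exp (-(v * y ^ 2)) ≤ Real.exp (-(v * x ^ 2)) := by
    apply Real.exp_le_exp.2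
    have : x ^ 2 ≤ y ^ 2 := by gcongr
    nlinarith
  have h2 : W a y ≤ W a x := W_anti a (by rw [abs_of_nonneg hx, abs_of_nonneg (hx.trans hxy)]; exact hxy)
  have := W_pos a y
  gcongr

theorem Hv_eq (a v r : ℝ) : Hv a v r = ∫ x in (0 : ℝ)..r, wv a v x := by
  have h1 := prim_sub (wv_cont a v) 0 (-r) r
  have h2 := intervalIntegral.integral_comp_neg (fun t => wv a v t) (a := 0) (b := r)
  simp only [wv_neg, neg_zero] at h2
  have h3 : ∫ x in (0 : ℝ)..(-r), wv a v x = -∫ x in (0 : ℝ)..r, wv a v x := by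
    rw [h2, intervalIntegral.integral_symm]
  have h4 : Hv a v r = (∫ x in (-r)..r, wv a v x) / 2 := rfl
  rw [h4, ← h1, h3]
  ring

theorem Hv_cont (a v : ℝ) : Continuous (Hv a v) := by
  have : Hv a v = fun r => ∫ x in (0 : ℝ)..r, wv a v x := by
    funext r; exact Hv_eq a v r
  rw [this]
  exact continuous_iff_continuousAt.2 fun x => (prim_hasDerivAt (wv_cont a v) 0 x).continuousAt

theorem Hv_mono (a v : ℝ) : StrictMono (Hv a v) := by
  have : Hv a v = fun r => ∫ x in (0 : ℝ)..r, wv a v x := by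
    funext r; exact Hv_eq a v r
  rw [this]
  exact prim_strictMono (wv_cont a v) (wv_pos a v) 0

theorem Hv_pos {v r : ℝ} (hr : 0 < r) : 0 < Hv a v r := by
  have h1 := Hv_mono a v hr
  have h2 : Hv a v 0 = 0 := by rw [Hv_eq]; simp
  rwa [h2] at h1

theorem Par2.Hv_lower (h : Par2 a κ L N) {v : ℝ} (hv0 : 0 ≤ v) (hv : v ≤ 1 / 2)
    (hv2 : 9 * L ^ 2 * Real.exp (-(v * (a - 1) ^ 2)) ≤ 1) {s : ℝ} (hs : s ∈ Icc (-L) L) :
    Hv a v a ^ N / 2 ≤ Hv a v (ell a κ s) ^ N := by
  have hl := h.ell_pos hs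
  have hle := h.ell_le s
  have ha := h.a_ge
  have hN := h.Npos
  have hlge := h.ell_ge hs
  have hs2 : s ^ 2 ≤ L ^ 2 := sq_le_sq' hs.1 hs.2
  have hHa : 0 < Hv a v a := Hv_pos h.ha
  -- lower bound for `Hv a v a`
  have h1 : 1 / 3 ≤ Hv a v a := by
    have e1 : Hv a v 1 ≤ Hv a v a := (Hv_mono a v).monotone (by linarith)
    have e2 : 1 / 3 ≤ Hv a v 1 := by
      rw [Hv_eq]
      have e3 : ∫ x in (0 : ℝ)..1, (1 / 3 : ℝ) ≤ ∫ x in (0 : ℝ)..1, wv a v x := by
        apply intervalIntegral.integral_mono_on (by norm_num) (by simp)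
          ((wv_cont a v).intervalIntegrable _ _)
        intro x hx
        refine le_trans ?_ (wv_anti hv0 hx.1 hx.2)
        unfold wv
        rw [W_eq (by rw [abs_one, abs_of_pos h.ha]; linarith)]
        unfold pg
        rw [← Real.exp_add]
        have e4 : -(1 : ℝ) ≤ -(v * 1 ^ 2) + -(1 ^ 2) / 2 := by linarith
        refine le_trans ?_ (Real.exp_le_exp.2 e4)
        rw [Real.exp_neg]
        have := Real.exp_one_lt_d9
        rw [one_div]
        apply inv_anti₀ (Real.exp_pos _)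
        linarith
      simpa using e3
    linarith
  -- the difference
  have h2 : Hv a v a - Hv a v (ell a κ s) ≤ (κ * s ^ 2 / 2) * wv a v (ell a κ s) := by
    rw [Hv_eq, Hv_eq, prim_sub (wv_cont a v)]
    have e1 : ∫ x in (ell a κ s)..a, wv a v x ≤ ∫ x in (ell a κ s)..a, wv a v (ell a κ s) := by
      apply intervalIntegral.integral_mono_on hle ((wv_cont a v).intervalIntegrable _ _) (by simp)
      intro x hx
      exact wv_anti hv0 hl.le hx.1
    rw [intervalIntegral.integral_const, smul_eq_mul] at e1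
    have e2 : a - ell a κ s = κ * s ^ 2 / 2 := by unfold ell; ring
    rwa [e2] at e1
  have h3 : wv a v (ell a κ s) ≤ Real.exp (-(v * (a - 1) ^ 2)) * (2 * pg a) := by
    unfold wv
    have e1 : Real.exp (-(v * ell a κ s ^ 2)) ≤ Real.exp (-(v * (a - 1) ^ 2)) := by
      apply Real.exp_le_exp.2
      have : (a - 1) ^ 2 ≤ ell a κ s ^ 2 := by
        apply pow_le_pow_left₀ (by linarith)
        linarith
      nlinarith
    have e2 := h.W_le hs
    have e3 := W_pos a (ell a κ s)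
    gcongr
  have h4 : N * (Hv a v a - Hv a v (ell a κ s)) ≤ Hv a v a / 2 := by
    have hκ := h.hκ
    have e1 : N * (Hv a v a - Hv a v (ell a κ s)) ≤
        N * ((κ * s ^ 2 / 2) * (Real.exp (-(v * (a - 1) ^ 2)) * (2 * pg a))) := by
      gcongr
      exact h2.trans (by gcongr)
    have e2 : (N : ℝ) * ((κ * s ^ 2 / 2) * (Real.exp (-(v * (a - 1) ^ 2)) * (2 * pg a))) =
        (N * κ * pg a) * s ^ 2 * Real.exp (-(v * (a - 1) ^ 2)) := by ring
    rw [e2, h.hN] at e1
    have e3 : 2 * E a a ≤ 3 := twoE_le h.ha.le (le_abs_self a)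
    have e4 : E a a * s ^ 2 * Real.exp (-(v * (a - 1) ^ 2)) ≤
        (3 / 2) * L ^ 2 * Real.exp (-(v * (a - 1) ^ 2)) := by
      gcongr
      linarith
    linarith
  have h5 : 0 < Hv a v (ell a κ s) := Hv_pos hl
  set R := Hv a v (ell a κ s) / Hv a v a with hR
  have h6 : 1 / 2 ≤ R ^ N := by
    have e1 := one_add_mul_le_pow (a := R - 1) (by
      have : 0 < R := div_pos h5 hHa
      linarith) N
    have e2 : (N : ℝ) * (1 - R) ≤ 1 / 2 := by
      have : (N : ℝ) * (1 - R) = N * (Hv a v a - Hv a v (ell a κ s)) / Hv a v a := by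
        rw [hR]
        field_simp
      rw [this, div_le_iff₀ hHa]
      linarith
    have e3 : 1 + (R - 1) = R := by ring
    rw [e3] at e1
    linarith
  have h7 : Hv a v (ell a κ s) ^ N = R ^ N * Hv a v a ^ N := by
    rw [hR, div_pow]
    field_simp
  rw [h7]
  have : 0 < Hv a v a ^ N := by positivity
  nlinarith

theorem Par2.tilt_var (h : Par2 a κ L N) {u v : ℝ} (hu0 : 0 ≤ u) (hu : u * L ^ 2 ≤ 1 / 2)
    (hv0 : 0 ≤ v) (hv : v ≤ 1 / 2) (hv2 : 9 * L ^ 2 * Real.exp (-(v * (a - 1) ^ 2)) ≤ 1) :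
    L ^ 2 / 12 * ∫ x, Real.exp (-(u * x 0 ^ 2) - v * ∑ i : Fin N, x i.succ ^ 2) ∂(PM a κ L N) ≤
      ∫ x, x 0 ^ 2 * Real.exp (-(u * x 0 ^ 2) - v * ∑ i : Fin N, x i.succ ^ 2) ∂(PM a κ L N) := by
  have hL := h.hL
  have hA := h.intpos
  have h1 := tilt_int h.toPar (φ := fun _ => 1) (by fun_prop) u v
  have h2 := tilt_int h.toPar (φ := fun s => s ^ 2) (by fun_prop) u v
  simp only [one_mul] at h1
  rw [h1, h2, ← mul_div_assoc]
  apply div_le_div_of_nonneg_right _ hA.le
  have hHc : Continuous fun s : ℝ => Real.exp (-(u * s ^ 2)) * Hv a v (ell a κ s) ^ N :=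
    (by fun_prop : Continuous fun s : ℝ => Real.exp (-(u * s ^ 2))).mul
      (((Hv_cont a v).comp (ell_cont a κ)).pow N)
  have hM : 0 < Hv a v a ^ N := by
    have := Hv_pos (a := a) (v := v) h.ha
    positivity
  set M := Hv a v a ^ N with hMd
  have b1 : ∫ s in (-L)..L, Real.exp (-(u * s ^ 2)) * Hv a v (ell a κ s) ^ N ≤
      ∫ s in (-L)..L, M := by
    apply intervalIntegral.integral_mono_on (by linarith) (hHc.intervalIntegrable _ _) (by simp)
    intro s hs
    have e1 : Real.exp (-(u * s ^ 2)) ≤ 1 := by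
      rw [Real.exp_le_one_iff]
      have : 0 ≤ u * s ^ 2 := by positivity
      linarith
    have e2 : Hv a v (ell a κ s) ^ N ≤ M := by
      rw [hMd]
      have := Hv_pos (a := a) (v := v) (h.ell_pos hs)
      apply pow_le_pow_left₀ this.le
      exact (Hv_mono a v).monotone (h.ell_le s)
    have e3 : 0 < Hv a v (ell a κ s) ^ N := by
      have := Hv_pos (a := a) (v := v) (h.ell_pos hs)
      positivity
    nlinarith [Real.exp_pos (-(u * s ^ 2))]
  have b2 : ∫ s in (-L)..L, s ^ 2 * (M / 4) ≤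
      ∫ s in (-L)..L, s ^ 2 * (Real.exp (-(u * s ^ 2)) * Hv a v (ell a κ s) ^ N) := by
    apply intervalIntegral.integral_mono_on (by linarith)
    · apply Continuous.intervalIntegrable
      fun_prop
    · exact ((continuous_id.pow 2).mul hHc).intervalIntegrable _ _
    · intro s hs
      have hs2 : s ^ 2 ≤ L ^ 2 := sq_le_sq' hs.1 hs.2
      apply mul_le_mul_of_nonneg_left _ (sq_nonneg s)
      have e1 : 1 / 2 ≤ Real.exp (-(u * s ^ 2)) := by
        refine exp_neg_half_ge.trans (Real.exp_le_exp.2 ?_)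
        have : u * s ^ 2 ≤ u * L ^ 2 := by gcongr
        linarith
      have e2 := h.Hv_lower hv0 hv hv2 hs
      have e3 : M / 2 ≤ Hv a v (ell a κ s) ^ N := e2
      calc M / 4 = 1 / 2 * (M / 2) := by ring
        _ ≤ Real.exp (-(u * s ^ 2)) * Hv a v (ell a κ s) ^ N := by
          have : 0 ≤ M / 2 := by positivity
          gcongr
  rw [intervalIntegral.integral_const, smul_eq_mul] at b1
  rw [intervalIntegral.integral_mul_const, integral_pow] at b2
  have e5 : (L ^ (2 + 1) - (-L) ^ (2 + 1)) / ((2 : ℕ) + 1 : ℝ) = 2 * L ^ 3 / 3 := by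
    push_cast
    ring
  rw [e5] at b2
  have e6 : L ^ 2 / 12 * ∫ s in (-L)..L, Real.exp (-(u * s ^ 2)) * Hv a v (ell a κ s) ^ N ≤
      L ^ 2 / 12 * ((L - -L) * M) := by gcongr
  have e7 : L ^ 2 / 12 * ((L - -L) * M) = 2 * L ^ 3 / 3 * (M / 4) := by ring
  linarith

theorem exists_par (L : ℝ) (hL : 1 ≤ L) : ∃ (κ : ℝ) (N : ℕ), Par2 (1 + 36 * L ^ 2) κ L N := by
  set a := 1 + 36 * L ^ 2 with ha
  have ha0 : 0 < a := by positivity
  have hE : 0 < E a a := E_pos ha0
  set Q := E a a / pg a with hQ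
  have hQ0 : 0 < Q := div_pos hE (pg_pos a)
  obtain ⟨N, hN⟩ := exists_nat_gt (Q ^ 2 * L ^ 2 + Q * L ^ 2 * a + 1)
  have t1 : 0 ≤ Q ^ 2 * L ^ 2 := by positivity
  have t2 : 0 ≤ Q * L ^ 2 * a := by positivity
  have hN0 : (0 : ℝ) < N := by linarith
  have hk : 0 < Q / N := div_pos hQ0 hN0
  have hka : Q / N * L ^ 2 * a ≤ 1 := by
    have : Q / N * L ^ 2 * a = Q * L ^ 2 * a / N := by ring
    rw [this, div_le_one hN0]
    linarith
  refine ⟨Q / N, N, ⟨⟨ha0, hk, by linarith, ?_, ?_, ?_⟩, hL, le_rfl, hka⟩⟩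
  · have := (pg_pos a).ne'
    rw [hQ]
    field_simp
  · have h1 : 1 ≤ a := by rw [ha]; nlinarith
    have h2 : 0 ≤ Q / N * L ^ 2 := by positivity
    nlinarith
  · have : (N : ℝ) * (Q / N * L) ^ 2 = Q ^ 2 * L ^ 2 / N := by
      field_simp
    rw [this, div_le_one hN0]
    linarith

end Pool.Agent.X166.LT
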