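import Pool.Agent.X166.LT.T10

/-!
# Assembly
-/

set_option autoImplicit false
set_option linter.unusedSectionVars false
set_option linter.unusedVariables false
open MeasureTheory Set Filter
open scoped Topology Interval ENNReal Pointwise

namespace Pool.Agent.X166.LT

theorem dmul_cont {n : ℕ} (d : Fin n → ℝ) : Continuous (dmul d) := by
  unfold dmul
  fun_prop

theorem dmul_comm {n : ℕ} (d ε x : Fin n → ℝ) : dmul ε (dmul d x) = dmul d (dmul ε x) := by
  funext i
  unfold dmul
  ring

/-- multiplication by non-zero constants as a linear equivalence -/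
noncomputable def dequiv {n : ℕ} (d : Fin n → ℝ) (hd : ∀ i, d i ≠ 0) :
    (Fin n → ℝ) ≃L[ℝ] (Fin n → ℝ) where
  toFun := dmul d
  invFun := dmul fun i => (d i)⁻¹
  map_add' x y := by
    funext i
    simp only [dmul, Pi.add_apply]
    ring
  map_smul' c x := by
    funext i
    simp only [dmul, Pi.smul_apply, smul_eq_mul, RingHom.id_apply]
    ring
  left_inv x := by
    funext i
    unfold dmul
    rw [← mul_assoc, inv_mul_cancel₀ (hd i), one_mul]
  right_inv x := by
    funext i
    unfold dmul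
    rw [← mul_assoc, mul_inv_cancel₀ (hd i), one_mul]
  continuous_toFun := dmul_cont _
  continuous_invFun := dmul_cont _

theorem map_compl {n : ℕ} {μ : Measure (Fin n → ℝ)} {K : Set (Fin n → ℝ)} (hK : IsCompact K)
    (h0 : μ Kᶜ = 0) (d : Fin n → ℝ) : IsCompact (dmul d '' K) ∧
      μ.map (dmul d) (dmul d '' K)ᶜ = 0 := by
  have h1 : IsCompact (dmul d '' K) := hK.image (dmul_cont d)
  refine ⟨h1, ?_⟩
  rw [Measure.map_apply (dmul_cont d).measurable h1.measurableSet.compl]
  apply measure_mono_null _ h0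
  intro x hx hxK
  exact hx ⟨x, hxK, rfl⟩

/-- a consequence of the symmetry -/
theorem odd_zero {n : ℕ} {μ : Measure (Fin n → ℝ)}
    (hs : ∀ ε : Fin n → ℝ, (∀ i, ε i = 1 ∨ ε i = -1) → μ.map (dmul ε) = μ) (i : Fin n)
    {F : (Fin n → ℝ) → ℝ} (hF : Continuous F)
    (ho : ∀ x, F (dmul (fun j => if j = i then -1 else 1) x) = -F x) : ∫ x, F x ∂μ = 0 := by
  have h1 := hs (fun j => if j = i then -1 else 1) (by
    intro j
    by_cases h : j = i
    · right; simp [h]
    · left; simp [h])
  have h2 : ∫ x, F x ∂μ = -∫ x, F x ∂μ := by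
    conv_lhs => rw [← h1]
    rw [integral_map (dmul_cont _).aemeasurable hF.aestronglyMeasurable]
    simp_rw [ho]
    rw [integral_neg]
  linarith

theorem main (L : ℝ) (hL : 1 ≤ L) : ∃ (n : ℕ) (π : Measure (Fin n → ℝ)),
    1 ≤ n ∧ IsProbabilityMeasure π ∧ LCM π ∧ (∃ K, IsCompact K ∧ π Kᶜ = 0) ∧
    (∀ ε : Fin n → ℝ, (∀ i, ε i = 1 ∨ ε i = -1) → π.map (dmul ε) = π) ∧
    (∀ i, ∫ x, x i ∂π = 0) ∧ (∀ i j, ∫ x, x i * x j ∂π = if i = j then 1 else 0) ∧
    LSI π 72 ∧
    ∀ C, LSI (π.tilted fun x => -(∑ i, x i ^ 2) / (2 * (12 * L ^ 2))) C → L ^ 2 / 72 ≤ C := by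
  obtain ⟨κ, N, h⟩ := exists_par L hL
  set a := 1 + 36 * L ^ 2 with ha
  have hprob := PM_prob h.toPar
  have hKc := bodyK_compact h.toPar
  have hK0 := PM_compl h.toPar
  set P := PM a κ L N with hP
  have hNpos : 0 < N := by exact_mod_cast h.Npos
  have hlsi : LSIn P (3 / 2) := h.lsi
  have hlsi6 : LSI P 6 := by
    intro f hf
    have := lsi_sq hKc hK0 (by norm_num) hlsi (hf.of_le (by norm_cast))
    norm_num at this
    exact this
  have hsign : ∀ ε : Fin (N + 1) → ℝ, (∀ i, ε i = 1 ∨ ε i = -1) → P.map (dmul ε) = P :=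
    fun ε hε => PM_sign h.toPar hε
  -- second moments
  set S0 := ∫ x, x 0 ^ 2 ∂P with hS0
  obtain ⟨S1, hS1⟩ : ∃ S1 : ℝ, ∀ i : Fin N, ∫ x, x i.succ ^ 2 ∂P = S1 := ⟨_, fun i => second_moment h.toPar i⟩
  have hmean : ∀ i, ∫ x, x i ∂P = 0 := by
    intro i
    apply odd_zero hsign i (continuous_apply i)
    intro x
    simp [dmul]
  have a1 : 1 / 12 ≤ S0 := h.var0
  have a2 : S0 ≤ 6 := by
    have := var_coord hKc hK0 hlsi6 0
    rw [hmean] at this
    linarith
  have a3 : 1 / 9 ≤ S1 := by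
    rw [← hS1 ⟨0, hNpos⟩]
    exact h.var1 _
  have a4 : S1 ≤ 6 := by
    have := var_coord hKc hK0 hlsi6 (Fin.succ ⟨0, hNpos⟩)
    rw [hmean, hS1] at this
    linarith
  have hS0p : 0 < S0 := by linarith
  have hS1p : 0 < S1 := by linarith
  set p := (Real.sqrt S0)⁻¹ with hp
  set r := (Real.sqrt S1)⁻¹ with hr
  have hp0 : 0 < p := inv_pos.2 (Real.sqrt_pos.2 hS0p)
  have hr0 : 0 < r := inv_pos.2 (Real.sqrt_pos.2 hS1p)
  have hp2 : p ^ 2 = S0⁻¹ := by rw [hp, inv_pow, Real.sq_sqrt hS0p.le]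
  have hr2 : r ^ 2 = S1⁻¹ := by rw [hr, inv_pow, Real.sq_sqrt hS1p.le]
  have b1 : p ^ 2 ≤ 12 := by
    rw [hp2, inv_le_comm₀ hS0p (by norm_num)]
    linarith
  have b2 : 1 / 6 ≤ p ^ 2 := by
    rw [hp2, one_div]
    exact inv_anti₀ hS0p a2
  have b3 : r ^ 2 ≤ 12 := by
    rw [hr2, inv_le_comm₀ hS1p (by norm_num)]
    linarith
  have b4 : 1 / 6 ≤ r ^ 2 := by
    rw [hr2, one_div]
    exact inv_anti₀ hS1p a4
  set d : Fin (N + 1) → ℝ := Fin.cons p fun _ => r with hd
  have hdpos : ∀ i, 0 < d i := by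
    intro i
    refine Fin.cases ?_ (fun j => ?_) i
    · simpa [hd] using hp0
    · simpa [hd] using hr0
  have hd2 : ∀ i, d i ^ 2 ≤ 12 := by
    intro i
    refine Fin.cases ?_ (fun j => ?_) i
    · simpa [hd] using b1
    · simpa [hd] using b3
  have hdc := dmul_cont d
  obtain ⟨hK1, hK2⟩ := map_compl hKc hK0 d
  have hprob2 : IsProbabilityMeasure (P.map (dmul d)) :=
    Measure.isProbabilityMeasure_map hdc.aemeasurable
  have hsign2 : ∀ ε : Fin (N + 1) → ℝ, (∀ i, ε i = 1 ∨ ε i = -1) →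
      (P.map (dmul d)).map (dmul ε) = P.map (dmul d) := by
    intro ε hε
    rw [Measure.map_map (dmul_cont ε).measurable hdc.measurable]
    have e1 : dmul ε ∘ dmul d = dmul d ∘ dmul ε := by
      funext x
      exact dmul_comm d ε x
    rw [e1, ← Measure.map_map hdc.measurable (dmul_cont ε).measurable, hsign ε hε]
  have hlsi72 : LSI (P.map (dmul d)) 72 := by
    have h1 := lsi_dmul (by norm_num) hlsi hd2 hKc hK0
    intro f hf
    have := lsi_sq hK1 hK2 (by norm_num) h1 (hf.of_le (by norm_cast))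
    norm_num at this
    exact this
  refine ⟨N + 1, P.map (dmul d), by omega, hprob2, ?_, ⟨_, hK1, hK2⟩, hsign2, ?_, ?_, hlsi72, ?_⟩
  · exact lcm_map (PM_lc h.toPar) (dequiv d fun i => (hdpos i).ne')
  · intro i
    apply odd_zero hsign2 i (continuous_apply i)
    intro x
    simp [dmul]
  · intro i j
    by_cases hij : i = j
    · subst hij
      rw [if_pos rfl]
      have hc : Continuous fun x : Fin (N + 1) → ℝ => x i * x i := by fun_prop
      rw [integral_map hdc.aemeasurable hc.aestronglyMeasurable]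
      have e1 : ∀ x : Fin (N + 1) → ℝ, dmul d x i * dmul d x i = d i ^ 2 * x i ^ 2 := by
        intro x
        unfold dmul
        ring
      simp_rw [e1]
      rw [integral_const_mul]
      refine Fin.cases ?_ (fun j => ?_) i
      · rw [← hS0]
        simp only [hd, Fin.cons_zero]
        rw [hp2, inv_mul_cancel₀ hS0p.ne']
      · rw [hS1]
        simp only [hd, Fin.cons_succ]
        rw [hr2, inv_mul_cancel₀ hS1p.ne']
    · rw [if_neg hij]
      apply odd_zero hsign2 i (F := fun x => x i * x j) (by fun_prop)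
      intro x
      have : ¬ j = i := fun h => hij h.symm
      simp [dmul, this]
  · intro C hC
    set g : (Fin (N + 1) → ℝ) → ℝ := fun x => -(∑ i, x i ^ 2) / (2 * (12 * L ^ 2)) with hg
    set Q := P.map (dmul d) with hQ
    have hgc : Continuous g := by
      rw [hg]
      fun_prop
    have hexp : Integrable (fun x => Real.exp (g x)) Q := integrable_cpt hK1 hK2 (by fun_prop)
    have hprob3 : IsProbabilityMeasure (Q.tilted g) := isProbabilityMeasure_tilted hexp
    have hK3 : Q.tilted g (dmul d '' bodyK a κ L N)ᶜ = 0 :=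
      tilted_absolutelyContinuous Q g hK2
    have h1 := var_coord hK1 hK3 hC 0
    have hZ : 0 < ∫ x, Real.exp (g x) ∂Q := integral_exp_pos hexp
    have e1 : ∫ x, x 0 ∂(Q.tilted g) = 0 := by
      rw [integral_tilted]
      apply odd_zero hsign2 0
      · simp only [smul_eq_mul]
        fun_prop
      · intro x
        have : g (dmul (fun j => if j = 0 then -1 else 1) x) = g x := by
          simp only [hg]
          congr 3
          funext i
          unfold dmul
          by_cases hi : i = 0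
          · simp [hi]
          · simp [hi]
        rw [this]
        simp [dmul]
    rw [e1] at h1
    have e2 : ∫ x, x 0 ^ 2 ∂(Q.tilted g) = (∫ x, x 0 ^ 2 * Real.exp (g x) ∂Q) /
        ∫ x, Real.exp (g x) ∂Q := by
      rw [integral_tilted, ← integral_div]
      apply integral_congr_ae
      refine Eventually.of_forall fun x => ?_
      simp only [smul_eq_mul]
      ring
    have hL2 : 0 < L ^ 2 := by positivity
    set u := p ^ 2 / (24 * L ^ 2) with hu
    set v := r ^ 2 / (24 * L ^ 2) with hv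
    have e3 : ∀ x, g (dmul d x) = -(u * x 0 ^ 2) - v * ∑ i : Fin N, x i.succ ^ 2 := by
      intro x
      simp only [hg, hu, hv]
      rw [Fin.sum_univ_succ]
      unfold dmul
      simp only [hd, Fin.cons_zero, Fin.cons_succ, mul_pow]
      rw [← Finset.mul_sum]
      field_simp
      ring
    have c1 : Continuous fun x : Fin (N + 1) → ℝ => x 0 ^ 2 * Real.exp (g x) := by fun_prop
    have c2 : Continuous fun x : Fin (N + 1) → ℝ => Real.exp (g x) := by fun_prop
    have e4 : ∫ x, x 0 ^ 2 * Real.exp (g x) ∂Q = p ^ 2 *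
        ∫ x, x 0 ^ 2 * Real.exp (-(u * x 0 ^ 2) - v * ∑ i : Fin N, x i.succ ^ 2) ∂P := by
      rw [hQ, integral_map hdc.aemeasurable c1.aestronglyMeasurable, ← integral_const_mul]
      apply integral_congr_ae
      refine Eventually.of_forall fun x => ?_
      simp only
      rw [e3]
      unfold dmul
      simp only [hd, Fin.cons_zero]
      ring
    have e5 : ∫ x, Real.exp (g x) ∂Q =
        ∫ x, Real.exp (-(u * x 0 ^ 2) - v * ∑ i : Fin N, x i.succ ^ 2) ∂P := by
      rw [hQ, integral_map hdc.aemeasurable c2.aestronglyMeasurable]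
      simp_rw [e3]
    have f1 : u * L ^ 2 ≤ 1 / 2 := by
      rw [hu, div_mul_eq_mul_div, div_le_iff₀ (by positivity)]
      nlinarith
    have f2 : v ≤ 1 / 2 := by
      rw [hv, div_le_iff₀ (by positivity)]
      nlinarith
    have f3 : 9 * L ^ 2 * Real.exp (-(v * (a - 1) ^ 2)) ≤ 1 := by
      have g1 : 9 * L ^ 2 ≤ v * (a - 1) ^ 2 := by
        have g2 : v * (a - 1) ^ 2 = r ^ 2 * (54 * L ^ 2) := by
          rw [hv, ha]
          field_simp
          ring
        rw [g2]
        nlinarith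
      have g3 : v * (a - 1) ^ 2 ≤ Real.exp (v * (a - 1) ^ 2) := by
        have := Real.add_one_le_exp (v * (a - 1) ^ 2)
        linarith
      rw [Real.exp_neg, ← div_eq_mul_inv, div_le_one (Real.exp_pos _)]
      linarith
    have key := h.tilt_var (u := u) (v := v) (by positivity) f1 (by positivity) f2 f3
    rw [← hP, ← e5] at key
    rw [e2, e4] at h1
    have k1 : L ^ 2 / 72 ≤ p ^ 2 * (∫ x, x 0 ^ 2 * Real.exp (-(u * x 0 ^ 2) -
        v * ∑ i : Fin N, x i.succ ^ 2) ∂P) / ∫ x, Real.exp (g x) ∂Q := by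
      rw [le_div_iff₀ hZ]
      have k2 : 0 ≤ L ^ 2 / 12 * ∫ x, Real.exp (g x) ∂Q := by positivity
      nlinarith
    linarith

end Pool.Agent.X166.LT
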