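import Pool.Agent.X166.LT.T1

/-!
# Logarithmic Sobolev inequalities for positive functions: intervals, fibres, products
-/

set_option autoImplicit false
set_option linter.unusedSectionVars false
set_option linter.unusedVariables false
open MeasureTheory Set Filter
open scoped Topology Interval

namespace Pool.Agent.X166.LT

/-- entropy of a function with respect to a probability measure -/
noncomputable def ent {Ω : Type*} [MeasurableSpace Ω] (μ : Measure Ω) (g : Ω → ℝ) : ℝ :=
  ∫ x, g x * Real.log (g x) ∂μ - (∫ x, g x ∂μ) * Real.log (∫ x, g x ∂μ)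

/-- the probability measure on `[a, b]` with density proportional to `w` -/
noncomputable def gm (a b : ℝ) (w : ℝ → ℝ) : Measure ℝ :=
  (volume.restrict (Icc a b)).withDensity (fun x => ENNReal.ofReal (w x / ∫ t in a..b, w t))

theorem int_pos {a b : ℝ} (hab : a < b) {w : ℝ → ℝ} (hw : Continuous w)
    (hpos : ∀ x ∈ Icc a b, 0 < w x) : 0 < ∫ t in a..b, w t := by
  apply intervalIntegral.intervalIntegral_pos_of_pos_on (hw.intervalIntegrable _ _) _ hab
  intro x hx
  exact hpos x (Ioo_subset_Icc_self hx)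

theorem gm_integral {a b : ℝ} (hab : a < b) {w : ℝ → ℝ} (hw : Continuous w)
    (hpos : ∀ x ∈ Icc a b, 0 < w x) (F : ℝ → ℝ) :
    ∫ x, F x ∂(gm a b w) = (∫ x in a..b, F x * w x) / ∫ x in a..b, w x := by
  have hA := int_pos hab hw hpos
  unfold gm
  generalize (∫ t in a..b, w t) = A at hA ⊢
  rw [integral_withDensity_eq_integral_toReal_smul (by fun_prop)
    (Eventually.of_forall fun x => ENNReal.ofReal_lt_top)]
  rw [intervalIntegral.integral_of_le hab.le, ← integral_Icc_eq_integral_Ioc, div_eq_mul_inv,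
    ← integral_mul_const]
  apply setIntegral_congr_fun measurableSet_Icc
  intro x hx
  simp only [smul_eq_mul]
  rw [ENNReal.toReal_ofReal (div_nonneg (hpos x hx).le hA.le)]
  rw [div_eq_mul_inv]
  ring

theorem gm_prob {a b : ℝ} (hab : a < b) {w : ℝ → ℝ} (hw : Continuous w)
    (hpos : ∀ x ∈ Icc a b, 0 < w x) : IsProbabilityMeasure (gm a b w) := by
  have hA := int_pos hab hw hpos
  constructor
  unfold gm
  rw [withDensity_apply _ MeasurableSet.univ, Measure.restrict_univ]
  rw [← ofReal_integral_eq_lintegral_ofReal]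
  · rw [integral_Icc_eq_integral_Ioc, ← intervalIntegral.integral_of_le hab.le,
      intervalIntegral.integral_div, div_self hA.ne', ENNReal.ofReal_one]
  · exact (hw.div_const _).continuousOn.integrableOn_compact isCompact_Icc
  · refine (ae_restrict_iff' measurableSet_Icc).2 (Eventually.of_forall fun x hx => ?_)
    exact div_nonneg (hpos x hx).le hA.le

theorem gm_compl (a b : ℝ) (w : ℝ → ℝ) : gm a b w (Icc a b)ᶜ = 0 := by
  unfold gm
  apply withDensity_absolutelyContinuous
  rw [Measure.restrict_apply measurableSet_Icc.compl]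
  simp

/-- logarithmic Sobolev inequality (constant 2) for positive `C¹` functions on the line -/
def LSI1 (μ : Measure ℝ) : Prop := ∀ g g' : ℝ → ℝ, Continuous g' →
  (∀ t, HasDerivAt g (g' t) t) → (∀ t, 0 < g t) → ent μ g ≤ 1 / 2 * ∫ t, g' t ^ 2 / g t ∂μ

theorem gm_lsi {a b : ℝ} (hab : a < b) {w U : ℝ → ℝ} (hw : Continuous w)
    (hpos : ∀ x ∈ Icc a b, 0 < w x) (hU : ContinuousOn U (Icc a b))
    (hwd : ∀ x ∈ Ioo a b, HasDerivAt w (w x * U x) x)
    (hconv : ∀ x ∈ Ioo a b, ∀ y ∈ Icc a b,
      Real.log (w y) ≤ Real.log (w x) + U x * (y - x) - 1 / 2 * (y - x) ^ 2) :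
    LSI1 (gm a b w) := by
  intro g g' hg' hgd hgp
  have hA := int_pos hab hw hpos
  set A := ∫ t in a..b, w t with hAdef
  have hg : Continuous g := continuous_iff_continuousAt.2 fun x => (hgd x).continuousAt
  have hgw : Continuous (fun x => g x * w x) := hg.mul hw
  have hB : 0 < ∫ x in a..b, g x * w x := by
    apply int_pos hab hgw
    intro x hx
    exact mul_pos (hgp x) (hpos x hx)
  set B := ∫ x in a..b, g x * w x with hBdef
  unfold ent
  rw [gm_integral hab hw hpos, gm_integral hab hw hpos, gm_integral hab hw hpos, ← hAdef, ← hBdef]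
  -- normalised function
  have hr : 0 < A / B := div_pos hA hB
  have key := transport (c := 1) hab one_pos (w := w) (U := U) (g := fun x => A / B * g x)
    (g' := fun x => A / B * g' x) hw.continuousOn hpos hU hwd
    (fun x hx y hy => by have := hconv x hx y hy; linarith)
    (hg.const_mul _).continuousOn (fun x _ => mul_pos hr (hgp x))
    (hg'.const_mul _).continuousOn (fun x _ => (hgd x).const_mul _)
    (by
      have : ∀ x, A / B * g x * w x = A / B * (g x * w x) := fun x => by ring
      simp_rw [this]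
      rw [intervalIntegral.integral_const_mul, ← hBdef]
      field_simp
      exact hAdef)
  have e1 : ∫ x in a..b, A / B * g x * Real.log (A / B * g x) * w x =
      A / B * (∫ x in a..b, g x * Real.log (g x) * w x) + A / B * Real.log (A / B) * B := by
    have h1 : ∀ x, A / B * g x * Real.log (A / B * g x) * w x =
        A / B * (g x * Real.log (g x) * w x) + A / B * Real.log (A / B) * (g x * w x) := by
      intro x
      rw [Real.log_mul hr.ne' (hgp x).ne']
      ring
    simp_rw [h1]
    rw [intervalIntegral.integral_add, intervalIntegral.integral_const_mul,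
      intervalIntegral.integral_const_mul, ← hBdef]
    · apply Continuous.intervalIntegrable
      exact (((hg.mul (hg.log fun x => (hgp x).ne')).mul hw).const_mul _)
    · exact (hgw.const_mul _).intervalIntegrable _ _
  have e2 : ∫ x in a..b, (A / B * g' x) ^ 2 / (A / B * g x) * w x =
      A / B * ∫ x in a..b, g' x ^ 2 / g x * w x := by
    rw [← intervalIntegral.integral_const_mul]
    apply intervalIntegral.integral_congr
    intro x _
    have := (hgp x).ne'
    simp only
    field_simp
  rw [e1, e2] at key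
  set I := ∫ x in a..b, g x * Real.log (g x) * w x
  set J := ∫ x in a..b, g' x ^ 2 / g x * w x
  have h3 : A / B * Real.log (A / B) * B = - (A / B) * (B * Real.log (B / A)) := by
    rw [Real.log_div hA.ne' hB.ne', Real.log_div hB.ne' hA.ne']
    ring
  have h4 : A / B * (I - B * Real.log (B / A)) ≤ A / B * (1 / 2 * J) := by
    nlinarith [key, h3]
  have h5 : I - B * Real.log (B / A) ≤ 1 / 2 * J := le_of_mul_le_mul_left h4 hr
  have h6 : I / A - B / A * Real.log (B / A) = (I - B * Real.log (B / A)) / A := by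
    field_simp
  rw [h6]
  calc (I - B * Real.log (B / A)) / A ≤ (1 / 2 * J) / A := by gcongr
    _ = 1 / 2 * (J / A) := by ring

/-! ### integrals of continuous functions against measures with compact support -/

section cpt

variable {Ω : Type*} [TopologicalSpace Ω] [MeasurableSpace Ω] [BorelSpace Ω] [T2Space Ω]

theorem restrict_self {μ : Measure Ω} {K : Set Ω} (hK : IsCompact K) (h0 : μ Kᶜ = 0) :
    μ.restrict K = μ := by
  apply Measure.restrict_eq_self_of_ae_mem
  rw [ae_iff]
  exact h0

theorem integrable_cpt {μ : Measure Ω} [IsFiniteMeasure μ] {K : Set Ω} (hK : IsCompact K)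
    (h0 : μ Kᶜ = 0) {F : Ω → ℝ} (hF : Continuous F) : Integrable F μ := by
  have h := hF.continuousOn.integrableOn_compact (μ := μ) hK
  rwa [IntegrableOn, restrict_self hK h0] at h

theorem cauchy {μ : Measure Ω} [IsProbabilityMeasure μ] {K : Set Ω} (hK : IsCompact K)
    (h0 : μ Kᶜ = 0) {D G : Ω → ℝ} (hD : Continuous D) (hG : Continuous G) (hp : ∀ x, 0 < G x) :
    (∫ x, D x ∂μ) ^ 2 / ∫ x, G x ∂μ ≤ ∫ x, D x ^ 2 / G x ∂μ := by
  have hA : 0 < ∫ x, G x ∂μ := by
    rw [integral_pos_iff_support_of_nonneg (fun x => (hp x).le) (integrable_cpt hK h0 hG)]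
    have : Function.support G = univ := by
      ext x; simp [(hp x).ne']
    rw [this]; simp
  set A := ∫ x, G x ∂μ
  set B := ∫ x, D x ∂μ
  have hDG : Continuous (fun x => D x ^ 2 / G x) := (hD.pow 2).div hG (fun x => (hp x).ne')
  have h1 : 0 ≤ ∫ x, (D x - B / A * G x) ^ 2 / G x ∂μ :=
    integral_nonneg fun x => div_nonneg (sq_nonneg _) (hp x).le
  have h2 : ∀ x, (D x - B / A * G x) ^ 2 / G x = D x ^ 2 / G x - 2 * (B / A) * D x +
      (B / A) ^ 2 * G x := by
    intro x
    have := (hp x).ne'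
    field_simp
    ring
  simp_rw [h2] at h1
  have i1 : Integrable (fun x => D x ^ 2 / G x) μ := integrable_cpt hK h0 hDG
  have i2 : Integrable (fun x => 2 * (B / A) * D x) μ := (integrable_cpt hK h0 hD).const_mul _
  have i3 : Integrable (fun x => (B / A) ^ 2 * G x) μ := (integrable_cpt hK h0 hG).const_mul _
  have i4 : Integrable (fun x => D x ^ 2 / G x - 2 * (B / A) * D x) μ := i1.sub i2
  rw [integral_add i4 i3, integral_sub i1 i2, integral_const_mul, integral_const_mul] at h1
  have h3 : 2 * (B / A) * B = 2 * (B ^ 2 / A) := by ring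
  have h4 : (B / A) ^ 2 * A = B ^ 2 / A := by field_simp
  change 0 ≤ ∫ x, D x ^ 2 / G x ∂μ - 2 * (B / A) * B + (B / A) ^ 2 * A at h1
  rw [h3, h4] at h1
  linarith

variable [SecondCountableTopology Ω]

theorem cont_param {μ : Measure Ω} [IsFiniteMeasure μ] {K : Set Ω} (hK : IsCompact K)
    (h0 : μ Kᶜ = 0) {F : ℝ → Ω → ℝ} (hF : Continuous (Function.uncurry F)) :
    Continuous (fun t => ∫ x, F t x ∂μ) := by
  have h := continuous_parametric_integral_of_continuous (μ := μ) hF hK
  rwa [restrict_self hK h0] at h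

theorem deriv_param {μ : Measure Ω} [IsFiniteMeasure μ] {K : Set Ω} (hK : IsCompact K)
    (h0 : μ Kᶜ = 0) {F D : ℝ → Ω → ℝ} (hF : Continuous (Function.uncurry F))
    (hD : Continuous (Function.uncurry D)) (hd : ∀ t x, HasDerivAt (fun s => F s x) (D t x) t)
    (t0 : ℝ) : HasDerivAt (fun t => ∫ x, F t x ∂μ) (∫ x, D t0 x ∂μ) t0 := by
  have hc : IsCompact (Icc (t0 - 1) (t0 + 1) ×ˢ K) := isCompact_Icc.prod hK
  obtain ⟨C, hC⟩ := hc.exists_bound_of_continuousOn hD.continuousOn
  have hnh : Ioo (t0 - 1) (t0 + 1) ∈ 𝓝 t0 := Ioo_mem_nhds (by linarith) (by linarith)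
  have hae : ∀ᵐ x ∂μ, x ∈ K := by
    rw [ae_iff]; exact h0
  have hFx : ∀ t, Continuous (F t) := fun t => hF.comp (by fun_prop : Continuous fun x : Ω => (t, x))
  have hDx : ∀ t, Continuous (D t) := fun t => hD.comp (by fun_prop : Continuous fun x : Ω => (t, x))
  refine (hasDerivAt_integral_of_dominated_loc_of_deriv_le (bound := fun _ => C) hnh ?_ ?_ ?_ ?_ ?_
    ?_).2
  · exact Eventually.of_forall fun t => (hFx t).aestronglyMeasurable
  · exact integrable_cpt hK h0 (hFx t0)
  · exact (hDx t0).aestronglyMeasurable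
  · filter_upwards [hae] with x hx t ht
    exact hC (t, x) ⟨Ioo_subset_Icc_self ht, hx⟩
  · exact integrable_const _
  · exact Eventually.of_forall fun x t _ => hd t x

theorem fiber {ν : Measure ℝ} [IsProbabilityMeasure ν] (hν : LSI1 ν) {J : Set ℝ}
    (hJ : IsCompact J) (hν0 : ν Jᶜ = 0) {μ : Measure Ω} [IsProbabilityMeasure μ] {K : Set Ω}
    (hK : IsCompact K) (h0 : μ Kᶜ = 0) {G D : ℝ → Ω → ℝ} (hG : Continuous (Function.uncurry G))
    (hD : Continuous (Function.uncurry D)) (hd : ∀ t x, HasDerivAt (fun s => G s x) (D t x) t)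
    (hp : ∀ t x, 0 < G t x) :
    ent (ν.prod μ) (fun z => G z.1 z.2) ≤ (∫ t, ent μ (G t) ∂ν) +
      1 / 2 * ∫ t, (∫ x, D t x ^ 2 / G t x ∂μ) ∂ν := by
  have hGx : ∀ t, Continuous (G t) := fun t => hG.comp (by fun_prop : Continuous fun x : Ω => (t, x))
  have hDx : ∀ t, Continuous (D t) := fun t => hD.comp (by fun_prop : Continuous fun x : Ω => (t, x))
  set g : ℝ → ℝ := fun t => ∫ x, G t x ∂μ with hg
  have hgc : Continuous g := cont_param hK h0 hG
  have hgp : ∀ t, 0 < g t := by
    intro t
    simp only [hg]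
    rw [integral_pos_iff_support_of_nonneg (fun x => (hp t x).le) (integrable_cpt hK h0 (hGx t))]
    have : Function.support (G t) = univ := by
      ext x; simp [(hp t x).ne']
    rw [this]; simp
  have hgd : ∀ t, HasDerivAt g (∫ x, D t x ∂μ) t := fun t => deriv_param hK h0 hG hD hd t
  have h1 := hν g (fun t => ∫ x, D t x ∂μ) (cont_param hK h0 hD) hgd hgp
  -- integrability on the product
  have hlog : Continuous (Function.uncurry fun t x => G t x * Real.log (G t x)) := by
    have : Continuous fun z : ℝ × Ω => G z.1 z.2 := hG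
    exact this.mul (this.log fun z => (hp z.1 z.2).ne')
  have hDG : Continuous (Function.uncurry fun t x => D t x ^ 2 / G t x) := by
    have e1 : Continuous fun z : ℝ × Ω => G z.1 z.2 := hG
    have e2 : Continuous fun z : ℝ × Ω => D z.1 z.2 := hD
    exact (e2.pow 2).div e1 fun z => (hp z.1 z.2).ne'
  have hprod0 : (ν.prod μ) (J ×ˢ K)ᶜ = 0 := by
    have e : (J ×ˢ K)ᶜ ⊆ (Jᶜ ×ˢ univ) ∪ (univ ×ˢ Kᶜ) := by
      intro z hz
      by_cases h : z.1 ∈ J
      · right; exact ⟨mem_univ _, fun h2 => hz ⟨h, h2⟩⟩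
      · left; exact ⟨h, mem_univ _⟩
    apply measure_mono_null e
    apply measure_union_null
    · rw [Measure.prod_prod, hν0, zero_mul]
    · rw [Measure.prod_prod, h0, mul_zero]
  have hJK : IsCompact (J ×ˢ K) := hJ.prod hK
  have i1 : Integrable (fun z : ℝ × Ω => G z.1 z.2 * Real.log (G z.1 z.2)) (ν.prod μ) :=
    integrable_cpt hJK hprod0 hlog
  have i2 : Integrable (fun z : ℝ × Ω => G z.1 z.2) (ν.prod μ) := integrable_cpt hJK hprod0 hG
  have e1 : ∫ z, G z.1 z.2 * Real.log (G z.1 z.2) ∂(ν.prod μ) =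
      ∫ t, (∫ x, G t x * Real.log (G t x) ∂μ) ∂ν := integral_prod _ i1
  have e2 : ∫ z, G z.1 z.2 ∂(ν.prod μ) = ∫ t, g t ∂ν := integral_prod _ i2
  have hc1 : Continuous fun t => ∫ x, G t x * Real.log (G t x) ∂μ := cont_param hK h0 hlog
  have hc2 : Continuous fun t => g t * Real.log (g t) := hgc.mul (hgc.log fun t => (hgp t).ne')
  have e3 : ∫ t, ent μ (G t) ∂ν = ∫ t, (∫ x, G t x * Real.log (G t x) ∂μ) ∂ν -
      ∫ t, g t * Real.log (g t) ∂ν := by
    unfold ent
    rw [integral_sub (integrable_cpt hJ hν0 hc1) (integrable_cpt hJ hν0 hc2)]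
  have h2 : ∫ t, (∫ x, D t x ∂μ) ^ 2 / g t ∂ν ≤ ∫ t, (∫ x, D t x ^ 2 / G t x ∂μ) ∂ν := by
    apply integral_mono
    · exact integrable_cpt hJ hν0 (((cont_param hK h0 hD).pow 2).div hgc fun t => (hgp t).ne')
    · exact integrable_cpt hJ hν0 (cont_param hK h0 hDG)
    · intro t
      exact cauchy hK h0 (hDx t) (hGx t) (hp t)
  have e4 : ent (ν.prod μ) (fun z => G z.1 z.2) = (∫ t, ent μ (G t) ∂ν) + ent ν g := by
    unfold ent at e3 ⊢
    rw [e1, e2, e3]
    ring
  rw [e4]
  linarith

end cpt

end Pool.Agent.X166.LT
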