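import Pool.Agent.X166.LT.T2

/-!
# Tensorisation
-/

set_option autoImplicit false
set_option linter.unusedSectionVars false
set_option linter.unusedVariables false
open MeasureTheory Set Filter
open scoped Topology Interval

namespace Pool.Agent.X166.LT

/-- squared Euclidean norm of the gradient -/
noncomputable def gradSq {n : ℕ} (f : (Fin n → ℝ) → ℝ) (x : Fin n → ℝ) : ℝ :=
  ∑ i, (fderiv ℝ f x (Pi.single i 1)) ^ 2

/-- logarithmic Sobolev inequality for positive functions on `ℝⁿ` with constant `c` -/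
def LSIn {n : ℕ} (μ : Measure (Fin n → ℝ)) (c : ℝ) : Prop := ∀ G : (Fin n → ℝ) → ℝ,
  ContDiff ℝ 1 G → (∀ x, 0 < G x) → ent μ G ≤ c * ∫ x, gradSq G x / G x ∂μ

theorem gradSq_cont {n : ℕ} {G : (Fin n → ℝ) → ℝ} (hG : ContDiff ℝ 1 G) :
    Continuous (gradSq G) := by
  have h : Continuous (fderiv ℝ G) := hG.continuous_fderiv (by norm_num)
  unfold gradSq
  apply continuous_finsetSum
  intro i _
  exact (h.clm_apply continuous_const).pow 2

/-- adding a coordinate in front -/
theorem cons_eq {k : ℕ} (t : ℝ) (y : Fin k → ℝ) :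
    (Fin.cons t y : Fin (k + 1) → ℝ) = (Fin.cons t (0 : Fin k → ℝ) : Fin (k + 1) → ℝ) +
      (Fin.cons 0 y : Fin (k + 1) → ℝ) := by
  funext i
  refine Fin.cases ?_ (fun j => ?_) i
  · simp
  · simp

theorem cons_cont {k : ℕ} : Continuous (fun z : ℝ × (Fin k → ℝ) =>
    (Fin.cons z.1 z.2 : Fin (k + 1) → ℝ)) := by
  apply continuous_pi
  intro i
  refine Fin.cases ?_ (fun j => ?_) i
  · simpa using continuous_fst
  · simp only [Fin.cons_succ]
    exact (continuous_apply j).comp continuous_snd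

/-- the linear embedding -/
noncomputable def emb (k : ℕ) : (Fin k → ℝ) →L[ℝ] (Fin (k + 1) → ℝ) :=
  ContinuousLinearMap.pi (fun i => Fin.cases 0 (fun j => ContinuousLinearMap.proj j) i)

theorem emb_apply {k : ℕ} (y : Fin k → ℝ) : emb k y = (Fin.cons 0 y : Fin (k + 1) → ℝ) := by
  funext i
  refine Fin.cases ?_ (fun j => ?_) i
  · simp [emb]
  · simp [emb]

theorem cons_contDiff {k : ℕ} (t : ℝ) : ContDiff ℝ 1 (fun y : Fin k → ℝ =>
    (Fin.cons t y : Fin (k + 1) → ℝ)) := by
  have : (fun y : Fin k → ℝ => (Fin.cons t y : Fin (k + 1) → ℝ)) = fun y =>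
      (Fin.cons t (0 : Fin k → ℝ) : Fin (k + 1) → ℝ) + emb k y := by
    funext y
    rw [emb_apply, ← cons_eq]
  rw [this]
  exact contDiff_const.add (emb k).contDiff

theorem cons_hasFDerivAt {k : ℕ} (t : ℝ) (y : Fin k → ℝ) : HasFDerivAt (fun y : Fin k → ℝ =>
    (Fin.cons t y : Fin (k + 1) → ℝ)) (emb k) y := by
  have : (fun y : Fin k → ℝ => (Fin.cons t y : Fin (k + 1) → ℝ)) = fun y =>
      (Fin.cons t (0 : Fin k → ℝ) : Fin (k + 1) → ℝ) + emb k y := by
    funext y
    rw [emb_apply, ← cons_eq]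
  rw [this]
  exact (emb k).hasFDerivAt.const_add _

theorem cons_zero_single {k : ℕ} (i : Fin k) :
    (Fin.cons 0 (Pi.single i 1 : Fin k → ℝ) : Fin (k + 1) → ℝ) = Pi.single i.succ 1 := by
  funext j
  refine Fin.cases ?_ (fun l => ?_) j
  · simp [Pi.single_apply, (Fin.succ_ne_zero i).symm]
  · simp [Pi.single_apply]

theorem gradSq_cons {k : ℕ} {G : (Fin (k + 1) → ℝ) → ℝ} (hG : ContDiff ℝ 1 G) (t : ℝ)
    (y : Fin k → ℝ) : gradSq (fun y : Fin k → ℝ => G (Fin.cons t y)) y =
      ∑ i : Fin k, (fderiv ℝ G (Fin.cons t y) (Pi.single i.succ 1)) ^ 2 := by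
  unfold gradSq
  apply Finset.sum_congr rfl
  intro i _
  have h1 : HasFDerivAt (fun y : Fin k → ℝ => G (Fin.cons t y))
      ((fderiv ℝ G (Fin.cons t y)).comp (emb k)) y :=
    ((hG.differentiable (by norm_num)) _).hasFDerivAt.comp y (cons_hasFDerivAt t y)
  rw [h1.fderiv, ContinuousLinearMap.comp_apply, emb_apply, cons_zero_single]

theorem gradSq_split {k : ℕ} {G : (Fin (k + 1) → ℝ) → ℝ} (hG : ContDiff ℝ 1 G) (t : ℝ)
    (y : Fin k → ℝ) : gradSq G (Fin.cons t y) = (fderiv ℝ G (Fin.cons t y) (Pi.single 0 1)) ^ 2 +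
      gradSq (fun y : Fin k → ℝ => G (Fin.cons t y)) y := by
  rw [gradSq_cons hG]
  unfold gradSq
  rw [Fin.sum_univ_succ]

/-- integrals over `ℝ^(k+1)` as iterated integrals -/
theorem integral_cons {k : ℕ} (ν : Measure ℝ) [SigmaFinite ν] (F : (Fin (k + 1) → ℝ) → ℝ) :
    ∫ x, F x ∂(Measure.pi fun _ : Fin (k + 1) => ν) =
      ∫ z, F (Fin.cons z.1 z.2) ∂(ν.prod (Measure.pi fun _ : Fin k => ν)) := by
  have h := measurePreserving_piFinSuccAbove (fun _ : Fin (k + 1) => ν) 0
  have h2 := h.integral_comp' (fun z => F (Fin.cons z.1 z.2))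
  rw [← h2]
  apply integral_congr_ae
  refine Eventually.of_forall fun x => ?_
  simp only
  congr 1
  funext i
  refine Fin.cases ?_ (fun j => ?_) i
  · simp [MeasurableEquiv.piFinSuccAbove, Fin.insertNthEquiv]
  · simp [MeasurableEquiv.piFinSuccAbove, Fin.insertNthEquiv]
    rfl

theorem pi_compl {k : ℕ} (ν : Measure ℝ) [IsProbabilityMeasure ν] {J : Set ℝ}
    (h0 : ν Jᶜ = 0) : (Measure.pi fun _ : Fin k => ν) (univ.pi fun _ => J)ᶜ = 0 := by
  have h1 : (univ.pi fun _ : Fin k => J)ᶜ = ⋃ i : Fin k, (fun x : Fin k → ℝ => x i) ⁻¹' Jᶜ := by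
    ext x
    simp
  rw [h1]
  apply measure_iUnion_null
  intro i
  have h2 := (measurePreserving_eval (fun _ : Fin k => ν) i)
  obtain ⟨S, hS, hSm, hS0⟩ := exists_measurable_superset_of_null h0
  refine measure_mono_null (preimage_mono hS) ?_
  have := h2.measure_preimage hSm.nullMeasurableSet
  exact this.trans hS0

theorem lsi_pi (ν : Measure ℝ) [IsProbabilityMeasure ν] (hν : LSI1 ν) {J : Set ℝ}
    (hJ : IsCompact J) (h0 : ν Jᶜ = 0) (k : ℕ) :
    LSIn (Measure.pi fun _ : Fin k => ν) (1 / 2) := by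
  induction k with
  | zero =>
    intro G hG hp
    have h1 : ∀ F : (Fin 0 → ℝ) → ℝ, ∫ x, F x ∂(Measure.pi fun _ : Fin 0 => ν) = F 0 := by
      intro F
      have : F = fun _ => F 0 := by
        funext x
        rw [Subsingleton.elim x 0]
      rw [this]
      simp
    unfold ent
    rw [h1, h1, h1]
    simp [gradSq]
  | succ k ih =>
    intro G hG hp
    set μ : Measure (Fin k → ℝ) := Measure.pi fun _ : Fin k => ν with hμ
    have hGc : Continuous G := hG.continuous
    have hfd : Continuous (fderiv ℝ G) := hG.continuous_fderiv (by norm_num)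
    have hcons : Continuous (Function.uncurry fun (t : ℝ) (y : Fin k → ℝ) =>
        (Fin.cons t y : Fin (k + 1) → ℝ)) := cons_cont
    have hK : IsCompact (univ.pi fun _ : Fin k => J) := isCompact_univ_pi fun _ => hJ
    have hK0 : μ (univ.pi fun _ : Fin k => J)ᶜ = 0 := pi_compl ν h0
    have hd : ∀ (t : ℝ) (y : Fin k → ℝ), HasDerivAt (fun s => G (Fin.cons s y))
        (fderiv ℝ G (Fin.cons t y) (Pi.single 0 1)) t := by
      intro t y
      have h1 : HasDerivAt (fun s : ℝ => (Fin.cons s y : Fin (k + 1) → ℝ)) (Pi.single 0 1) t := by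
        rw [hasDerivAt_pi]
        intro i
        refine Fin.cases ?_ (fun j => ?_) i
        · simpa using hasDerivAt_id' t
        · simpa using hasDerivAt_const t (y j)
      exact ((hG.differentiable (by norm_num)) _).hasFDerivAt.comp_hasDerivAt t h1
    have hDc : Continuous (Function.uncurry fun (t : ℝ) (y : Fin k → ℝ) =>
        fderiv ℝ G (Fin.cons t y) (Pi.single 0 1)) :=
      (hfd.comp hcons).clm_apply continuous_const
    have key := fiber hν hJ h0 hK hK0 (G := fun t y => G (Fin.cons t y))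
      (D := fun t y => fderiv ℝ G (Fin.cons t y) (Pi.single 0 1)) (hGc.comp hcons) hDc hd
      (fun t y => hp _)
    have e1 : ent (Measure.pi fun _ : Fin (k + 1) => ν) G =
        ent (ν.prod μ) (fun z => G (Fin.cons z.1 z.2)) := by
      unfold ent
      rw [integral_cons ν (fun x => G x * Real.log (G x)), integral_cons ν G]
    have hgs : Continuous (gradSq G) := gradSq_cont hG
    have hgG : Continuous (Function.uncurry fun (t : ℝ) (y : Fin k → ℝ) =>
        gradSq G (Fin.cons t y) / G (Fin.cons t y)) :=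
      (hgs.comp hcons).div (hGc.comp hcons) fun z => (hp _).ne'
    have hsub : ∀ t, Continuous fun y : Fin k → ℝ => gradSq (fun y => G (Fin.cons t y)) y /
        G (Fin.cons t y) := by
      intro t
      have h1 : ContDiff ℝ 1 fun y : Fin k → ℝ => G (Fin.cons t y) := hG.comp (cons_contDiff t)
      exact (gradSq_cont h1).div h1.continuous fun y => (hp _).ne'
    have hDG : Continuous (Function.uncurry fun (t : ℝ) (y : Fin k → ℝ) =>
        (fderiv ℝ G (Fin.cons t y) (Pi.single 0 1)) ^ 2 / G (Fin.cons t y)) :=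
      (hDc.pow 2).div (hGc.comp hcons) fun z => (hp _).ne'
    have hDGx : ∀ t, Continuous fun y : Fin k → ℝ =>
        (fderiv ℝ G (Fin.cons t y) (Pi.single 0 1)) ^ 2 / G (Fin.cons t y) := fun t =>
      hDG.comp (by fun_prop : Continuous fun y : Fin k → ℝ => (t, y))
    have hprod0 : (ν.prod μ) (J ×ˢ (univ.pi fun _ : Fin k => J))ᶜ = 0 := by
      have e : (J ×ˢ (univ.pi fun _ : Fin k => J))ᶜ ⊆
          (Jᶜ ×ˢ univ) ∪ (univ ×ˢ (univ.pi fun _ : Fin k => J)ᶜ) := by
        intro z hz
        by_cases h : z.1 ∈ J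
        · right; exact ⟨mem_univ _, fun h2 => hz ⟨h, h2⟩⟩
        · left; exact ⟨h, mem_univ _⟩
      apply measure_mono_null e
      apply measure_union_null
      · rw [Measure.prod_prod, h0, zero_mul]
      · rw [Measure.prod_prod, hK0, mul_zero]
    have e2 : ∫ x, gradSq G x / G x ∂(Measure.pi fun _ : Fin (k + 1) => ν) =
        ∫ t, (∫ y, gradSq G (Fin.cons t y) / G (Fin.cons t y) ∂μ) ∂ν := by
      rw [integral_cons ν (fun x => gradSq G x / G x)]
      exact integral_prod _ (integrable_cpt (hJ.prod hK) hprod0 hgG)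
    have e3 : ∀ t, ∫ y, gradSq G (Fin.cons t y) / G (Fin.cons t y) ∂μ =
        ∫ y, (fderiv ℝ G (Fin.cons t y) (Pi.single 0 1)) ^ 2 / G (Fin.cons t y) ∂μ +
        ∫ y, gradSq (fun y => G (Fin.cons t y)) y / G (Fin.cons t y) ∂μ := by
      intro t
      rw [← integral_add (integrable_cpt hK hK0 (hDGx t)) (integrable_cpt hK hK0 (hsub t))]
      apply integral_congr_ae
      refine Eventually.of_forall fun y => ?_
      simp only
      rw [gradSq_split hG, add_div]
    have hA : ∀ t, ent μ (fun y => G (Fin.cons t y)) ≤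
        1 / 2 * ∫ y, gradSq (fun y => G (Fin.cons t y)) y / G (Fin.cons t y) ∂μ := fun t =>
      ih (fun y => G (Fin.cons t y)) (hG.comp (cons_contDiff t)) fun y => hp _
    rw [e1, e2]
    refine key.trans ?_
    -- continuity of the inner integrals in `t`
    have c1 : Continuous fun t => ∫ y, gradSq G (Fin.cons t y) / G (Fin.cons t y) ∂μ :=
      cont_param hK hK0 hgG
    have c2 : Continuous fun t =>
        ∫ y, (fderiv ℝ G (Fin.cons t y) (Pi.single 0 1)) ^ 2 / G (Fin.cons t y) ∂μ :=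
      cont_param hK hK0 hDG
    have c3 : Continuous fun t => ent μ (fun y => G (Fin.cons t y)) := by
      unfold ent
      have hGG : Continuous (Function.uncurry fun (t : ℝ) (y : Fin k → ℝ) =>
          G (Fin.cons t y)) := hGc.comp hcons
      have hm : Continuous fun t => ∫ y, G (Fin.cons t y) ∂μ := cont_param hK hK0 hGG
      have hmp : ∀ t, 0 < ∫ y, G (Fin.cons t y) ∂μ := by
        intro t
        rw [integral_pos_iff_support_of_nonneg (fun x => (hp _).le)
          (integrable_cpt hK hK0 (hGG.comp (by fun_prop : Continuous fun y : Fin k → ℝ => (t, y))))]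
        have : Function.support (fun y : Fin k → ℝ => G (Fin.cons t y)) = univ := by
          ext x; simp [(hp _).ne']
        rw [this]; simp
      refine Continuous.sub ?_ (hm.mul (hm.log fun t => (hmp t).ne'))
      exact cont_param hK hK0 (F := fun t y => G (Fin.cons t y) * Real.log (G (Fin.cons t y)))
        (hGG.mul (hGG.log fun z => (hp _).ne'))
    have h1 : ∫ t, ent μ (fun y => G (Fin.cons t y)) ∂ν ≤
        ∫ t, 1 / 2 * ((∫ y, gradSq G (Fin.cons t y) / G (Fin.cons t y) ∂μ) -
          ∫ y, (fderiv ℝ G (Fin.cons t y) (Pi.single 0 1)) ^ 2 / G (Fin.cons t y) ∂μ) ∂ν := by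
      have c4 : Continuous fun t : ℝ =>
          1 / 2 * ((∫ y, gradSq G (Fin.cons t y) / G (Fin.cons t y) ∂μ) -
          ∫ y, (fderiv ℝ G (Fin.cons t y) (Pi.single 0 1)) ^ 2 / G (Fin.cons t y) ∂μ) :=
        continuous_const.mul (c1.sub c2)
      refine integral_mono (integrable_cpt hJ h0 c3) (integrable_cpt hJ h0 c4) fun t => ?_
      have h3 := hA t
      have h4 := e3 t
      simp only at h3 h4 ⊢
      linarith
    rw [integral_const_mul, integral_sub (integrable_cpt hJ h0 c1) (integrable_cpt hJ h0 c2)] at h1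
    linarith

end Pool.Agent.X166.LT
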