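import Pool.Agent.X166.LT.T3

/-!
# The truncated Gaussian and its distribution function
-/

set_option autoImplicit false
set_option linter.unusedSectionVars false
set_option linter.unusedVariables false
open MeasureTheory Set Filter
open scoped Topology Interval

namespace Pool.Agent.X166.LT

/-- Gaussian weight -/
noncomputable def pg (x : ℝ) : ℝ := Real.exp (-(x ^ 2) / 2)

theorem pg_cont : Continuous pg := by unfold pg; fun_prop
theorem pg_pos (x : ℝ) : 0 < pg x := Real.exp_pos _

theorem pg_deriv (x : ℝ) : HasDerivAt pg (pg x * (-x)) x := by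
  unfold pg
  have h1 : HasDerivAt (fun x : ℝ => -(x ^ 2) / 2) (-x) x := by
    have h := ((hasDerivAt_pow 2 x).neg).div_const 2
    refine h.congr_deriv ?_
    push_cast
    ring
  exact h1.exp

/-- the weight frozen outside `[-a, a]` -/
noncomputable def W (a x : ℝ) : ℝ := Real.exp (-((min |x| |a|) ^ 2) / 2)

theorem W_cont (a : ℝ) : Continuous (W a) := by unfold W; fun_prop

theorem W_pos (a x : ℝ) : 0 < W a x := Real.exp_pos _

theorem W_anti (a : ℝ) {x y : ℝ} (h : |x| ≤ |y|) : W a y ≤ W a x := by
  unfold W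
  apply Real.exp_le_exp.2
  have h1 : min |x| |a| ≤ min |y| |a| := min_le_min_right _ h
  have h2 : 0 ≤ min |x| |a| := le_min (abs_nonneg _) (abs_nonneg _)
  nlinarith

theorem W_ge (a x : ℝ) : pg a ≤ W a x := by
  unfold W pg
  apply Real.exp_le_exp.2
  have h1 : min |x| |a| ≤ |a| := min_le_right _ _
  have h2 : 0 ≤ min |x| |a| := le_min (abs_nonneg _) (abs_nonneg _)
  have h3 : |a| ^ 2 = a ^ 2 := sq_abs a
  nlinarith [abs_nonneg a]

theorem W_eq {a x : ℝ} (h : |x| ≤ |a|) : W a x = pg x := by
  unfold W pg
  rw [min_eq_left h, sq_abs]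

theorem W_neg (a x : ℝ) : W a (-x) = W a x := by
  unfold W
  rw [abs_neg]

/-- the primitive -/
noncomputable def E (a x : ℝ) : ℝ := ∫ t in (0 : ℝ)..x, W a t

theorem E_deriv (a x : ℝ) : HasDerivAt (E a) (W a x) x := prim_hasDerivAt (W_cont a) 0 x

theorem E_cont (a : ℝ) : Continuous (E a) :=
  continuous_iff_continuousAt.2 fun x => (E_deriv a x).continuousAt

theorem E_mono (a : ℝ) : StrictMono (E a) := prim_strictMono (W_cont a) (W_pos a) 0

theorem E_zero (a : ℝ) : E a 0 = 0 := by unfold E; simp

theorem E_pos {a x : ℝ} (hx : 0 < x) : 0 < E a x := by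
  rw [← E_zero a]; exact E_mono a hx

theorem E_neg (a x : ℝ) : E a (-x) = -E a x := by
  unfold E
  have h := intervalIntegral.integral_comp_neg (fun t => W a t) (a := 0) (b := x)
  simp only [W_neg, neg_zero] at h
  rw [h, intervalIntegral.integral_symm]

/-- tangent line inequality for `E` on the right half line -/
theorem E_tangent {a x y : ℝ} (hx : 0 ≤ x) (hy : 0 ≤ y) : E a y ≤ E a x + W a x * (y - x) := by
  have h := prim_sub (W_cont a) 0 x y
  change E a y - E a x = _ at h
  rcases le_total x y with hxy | hxy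
  · have h2 : ∫ t in x..y, W a t ≤ ∫ _ in x..y, W a x := by
      apply intervalIntegral.integral_mono_on hxy ((W_cont a).intervalIntegrable _ _) (by simp)
      intro t ht
      apply W_anti
      rw [abs_of_nonneg hx, abs_of_nonneg (hx.trans ht.1)]
      exact ht.1
    rw [intervalIntegral.integral_const, smul_eq_mul] at h2
    linarith
  · have h2 : ∫ _ in y..x, W a x ≤ ∫ t in y..x, W a t := by
      apply intervalIntegral.integral_mono_on hxy (by simp) ((W_cont a).intervalIntegrable _ _)
      intro t ht
      apply W_anti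
      rw [abs_of_nonneg hx, abs_of_nonneg (hy.trans ht.1)]
      exact ht.2
    rw [intervalIntegral.integral_const, smul_eq_mul] at h2
    rw [intervalIntegral.integral_symm] at h
    nlinarith

/-- the inverse of `E` -/
noncomputable def q (a : ℝ) : ℝ → ℝ := Classical.choose (exists_inv (W a) (W_cont a) (pg a) (pg_pos a) (W_ge a) 0)

theorem q_cont (a : ℝ) : Continuous (q a) := (Classical.choose_spec (exists_inv (W a) (W_cont a) (pg a) (pg_pos a) (W_ge a) 0)).1
theorem q_mono (a : ℝ) : StrictMono (q a) := (Classical.choose_spec (exists_inv (W a) (W_cont a) (pg a) (pg_pos a) (W_ge a) 0)).2.1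
theorem q_E (a x : ℝ) : q a (E a x) = x := (Classical.choose_spec (exists_inv (W a) (W_cont a) (pg a) (pg_pos a) (W_ge a) 0)).2.2.1 x
theorem E_q (a y : ℝ) : E a (q a y) = y := (Classical.choose_spec (exists_inv (W a) (W_cont a) (pg a) (pg_pos a) (W_ge a) 0)).2.2.2.1 y
theorem q_deriv (a y : ℝ) : HasDerivAt (q a) (W a (q a y))⁻¹ y :=
  (Classical.choose_spec (exists_inv (W a) (W_cont a) (pg a) (pg_pos a) (W_ge a) 0)).2.2.2.2 y

theorem q_abs {a r w : ℝ} (hr : 0 ≤ r) (hw : |w| ≤ 1) : |q a (w * E a r)| ≤ r := by
  have he : 0 ≤ E a r := by rw [← E_zero a]; exact (E_mono a).monotone hr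
  obtain ⟨h1, h2⟩ := abs_le.1 hw
  rw [abs_le]
  constructor
  · have h3 : E a (-r) ≤ w * E a r := by rw [E_neg]; nlinarith
    have h4 := (q_mono a).monotone h3
    rwa [q_E] at h4
  · have h3 : w * E a r ≤ E a r := by nlinarith
    have h4 := (q_mono a).monotone h3
    rwa [q_E] at h4

/-- uniform probability measure on `[-1, 1]` -/
noncomputable def un : Measure ℝ := gm (-1) 1 (fun _ => 1)

instance un_prob : IsProbabilityMeasure un :=
  gm_prob (by norm_num) continuous_const (fun _ _ => one_pos)

theorem un_integral (F : ℝ → ℝ) : ∫ x, F x ∂un = (∫ x in (-1 : ℝ)..1, F x) / 2 := by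
  unfold un
  rw [gm_integral (by norm_num) continuous_const (fun _ _ => one_pos)]
  norm_num

/-- change of variables -/
theorem cov {a r : ℝ} (hr : 0 < r) (F : ℝ → ℝ) (hF : Continuous F) :
    ∫ w in (-1 : ℝ)..1, F (q a (w * E a r)) = (∫ x in (-r)..r, F x * W a x) / E a r := by
  have he := E_pos (a := a) hr
  have h := intervalIntegral.integral_comp_mul_deriv (a := -r) (b := r)
    (f := fun x => E a x / E a r) (f' := fun x => W a x / E a r)
    (g := fun w => F (q a (w * E a r))) (fun x _ => (E_deriv a x).div_const _)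
    ((W_cont a).div_const _).continuousOn
    (hF.comp ((q_cont a).comp (by fun_prop)))
  simp only [Function.comp_def] at h
  rw [E_neg, neg_div, div_self he.ne'] at h
  rw [← h, ← intervalIntegral.integral_div]
  apply intervalIntegral.integral_congr
  intro x _
  simp only
  rw [div_mul_cancel₀ _ he.ne', q_E]
  ring

theorem int_W {a r : ℝ} : ∫ x in (-r)..r, W a x = 2 * E a r := by
  have h := prim_sub (W_cont a) 0 (-r) r
  change E a r - E a (-r) = _ at h
  rw [← h, E_neg]
  ring

theorem map_un {a r : ℝ} (hr : 0 < r) : un.map (fun w => q a (w * E a r)) = gm (-r) r (W a) := by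
  have hm : Continuous fun w => q a (w * E a r) := (q_cont a).comp (by fun_prop)
  have hp := gm_prob (a := -r) (b := r) (by linarith) (W_cont a) (fun x _ => W_pos a x)
  have hp2 : IsProbabilityMeasure (un.map (fun w => q a (w * E a r))) :=
    Measure.isProbabilityMeasure_map hm.aemeasurable
  apply ext_of_forall_integral_eq_of_IsFiniteMeasure
  intro f
  rw [integral_map hm.aemeasurable f.continuous.aestronglyMeasurable, un_integral,
    cov hr f f.continuous, gm_integral (by linarith) (W_cont a) (fun x _ => W_pos a x), int_W]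
  have he := E_pos (a := a) hr
  field_simp

/-- truncated Gaussian measures satisfy the logarithmic Sobolev inequality -/
theorem lsi_gauss {a r : ℝ} (hr : 0 < r) (hra : r ≤ |a|) : LSI1 (gm (-r) r (W a)) := by
  have hle : ∀ x ∈ Icc (-r) r, |x| ≤ |a| := fun x hx => (abs_le.2 hx).trans hra
  apply gm_lsi (U := fun x => -x) (by linarith) (W_cont a) (fun x _ => W_pos a x)
    continuous_neg.continuousOn
  · intro x hx
    have hx' := Ioo_subset_Icc_self hx
    rw [W_eq (hle x hx')]
    apply (pg_deriv x).congr_of_eventuallyEq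
    filter_upwards [Ioo_mem_nhds hx.1 hx.2] with y hy
    exact W_eq (hle y (Ioo_subset_Icc_self hy))
  · intro x hx y hy
    rw [W_eq (hle x (Ioo_subset_Icc_self hx)), W_eq (hle y hy)]
    unfold pg
    rw [Real.log_exp, Real.log_exp]
    nlinarith

end Pool.Agent.X166.LT
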