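import Pool.Agent.X166.LT.T4

/-!
# The logarithmic Sobolev inequality for the example
-/

set_option autoImplicit false
set_option linter.unusedSectionVars false
set_option linter.unusedVariables false
open MeasureTheory Set Filter
open scoped Topology Interval

namespace Pool.Agent.X166.LT

/-- half width of the section at height `s` -/
noncomputable def ell (a κ s : ℝ) : ℝ := a - κ * s ^ 2 / 2

/-- its Gaussian mass (one side) -/
noncomputable def ee (a κ s : ℝ) : ℝ := E a (ell a κ s)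

theorem ell_cont (a κ : ℝ) : Continuous (ell a κ) := by unfold ell; fun_prop
theorem ee_cont (a κ : ℝ) : Continuous (ee a κ) := (E_cont a).comp (ell_cont a κ)

theorem ell_deriv (a κ s : ℝ) : HasDerivAt (ell a κ) (-(κ * s)) s := by
  unfold ell
  have h := (((hasDerivAt_pow 2 s).const_mul κ).div_const 2).const_sub a
  refine h.congr_deriv ?_
  push_cast
  ring

theorem ee_deriv (a κ s : ℝ) : HasDerivAt (ee a κ) (W a (ell a κ s) * (-(κ * s))) s :=
  (E_deriv a _).comp s (ell_deriv a κ s)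

/-- the conditions on the parameters -/
structure Par (a κ L : ℝ) (N : ℕ) : Prop where
  ha : 0 < a
  hκ : 0 < κ
  hL : 0 < L
  hN : (N : ℝ) * κ * pg a = E a a
  h1 : κ * L ^ 2 / 2 < a
  h2 : (N : ℝ) * (κ * L) ^ 2 ≤ 1

variable {a κ L : ℝ} {N : ℕ}

theorem Par.ell_pos (h : Par a κ L N) {s : ℝ} (hs : s ∈ Icc (-L) L) : 0 < ell a κ s := by
  have h1 : s ^ 2 ≤ L ^ 2 := sq_le_sq' hs.1 hs.2
  have h2 := h.h1
  have h3 := h.hκ
  unfold ell
  nlinarith

theorem Par.ell_le (h : Par a κ L N) (s : ℝ) : ell a κ s ≤ a := by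
  have h3 := h.hκ
  unfold ell
  nlinarith [sq_nonneg s]

theorem Par.ee_pos (h : Par a κ L N) {s : ℝ} (hs : s ∈ Icc (-L) L) : 0 < ee a κ s :=
  E_pos (h.ell_pos hs)

theorem Par.Npos (h : Par a κ L N) : 0 < (N : ℝ) := by
  have h1 := h.hN
  have h2 := E_pos (a := a) h.ha
  have h3 : (0 : ℝ) ≤ N := Nat.cast_nonneg _
  rcases h3.lt_or_eq with h4 | h4
  · exact h4
  · rw [← h4] at h1
    simp at h1
    linarith

/-- the law of the height -/
noncomputable def lam (a κ L : ℝ) (N : ℕ) : Measure ℝ := gm (-L) L (fun s => ee a κ s ^ N)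

theorem Par.lam_prob (h : Par a κ L N) : IsProbabilityMeasure (lam a κ L N) :=
  gm_prob (by have := h.hL; linarith) ((ee_cont a κ).pow N) (fun s hs => pow_pos (h.ee_pos hs) N)

theorem Par.lam_lsi (h : Par a κ L N) : LSI1 (lam a κ L N) := by
  have hL := h.hL
  have hsub : ∀ s ∈ Ioo (-L) L, s ∈ Icc (-L) L := fun s hs => Ioo_subset_Icc_self hs
  unfold lam
  apply gm_lsi (w := fun s => ee a κ s ^ N)
    (U := fun s => N * (W a (ell a κ s) * (-(κ * s))) / ee a κ s) (by linarith)
    ((ee_cont a κ).pow N) (fun s hs => pow_pos (h.ee_pos hs) N)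
  · apply ContinuousOn.div
    · have := (W_cont a).comp (ell_cont a κ)
      exact (continuous_const.mul (this.mul (by fun_prop))).continuousOn
    · exact (ee_cont a κ).continuousOn
    · intro s hs
      exact (h.ee_pos hs).ne'
  · intro s hs
    have h1 := (ee_deriv a κ s).pow N
    refine h1.congr_deriv ?_
    have h2 := (h.ee_pos (hsub s hs)).ne'
    have h3 : 0 < N := by exact_mod_cast h.Npos
    obtain ⟨m, rfl⟩ : ∃ m, N = m + 1 := ⟨N - 1, by omega⟩
    simp only [Nat.add_sub_cancel]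
    field_simp
    rw [pow_succ]
    ring
  · intro x hx y hy
    have hx' := hsub x hx
    have ex := h.ee_pos hx'
    have ey := h.ee_pos hy
    rw [Real.log_pow, Real.log_pow]
    have t1 : ee a κ y ≤ ee a κ x + W a (ell a κ x) * (ell a κ y - ell a κ x) :=
      E_tangent (h.ell_pos hx').le (h.ell_pos hy).le
    have t2 : Real.log (ee a κ y) - Real.log (ee a κ x) ≤ ee a κ y / ee a κ x - 1 := by
      rw [← Real.log_div ey.ne' ex.ne']
      exact Real.log_le_sub_one_of_pos (div_pos ey ex)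
    have t3 : ee a κ y / ee a κ x - 1 ≤ W a (ell a κ x) / ee a κ x * (ell a κ y - ell a κ x) := by
      have : ee a κ y / ee a κ x - 1 = (ee a κ y - ee a κ x) / ee a κ x := by
        field_simp
      rw [this, div_mul_eq_mul_div]
      gcongr
      linarith
    have t4 : ell a κ y - ell a κ x = -(κ * x) * (y - x) - κ / 2 * (y - x) ^ 2 := by
      unfold ell; ring
    have t5 : 1 ≤ N * κ * W a (ell a κ x) / ee a κ x := by
      rw [le_div_iff₀ ex, one_mul]
      have e1 : ee a κ x ≤ E a a := (E_mono a).monotone (h.ell_le x)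
      have e2 : N * κ * pg a ≤ N * κ * W a (ell a κ x) := by
        have := W_ge a (ell a κ x)
        have h3 := h.hκ
        have h4 := h.Npos
        gcongr
      rw [h.hN] at e2
      linarith
    have hN := h.Npos
    have t6 : Real.log (ee a κ y) ≤ Real.log (ee a κ x) +
        W a (ell a κ x) / ee a κ x * (ell a κ y - ell a κ x) := by linarith
    rw [t4] at t6
    have t7 := mul_le_mul_of_nonneg_left t6 hN.le
    have t8 : (N : ℝ) * (Real.log (ee a κ x) + W a (ell a κ x) / ee a κ x *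
        (-(κ * x) * (y - x) - κ / 2 * (y - x) ^ 2)) =
        N * Real.log (ee a κ x) + N * (W a (ell a κ x) * (-(κ * x))) / ee a κ x * (y - x) -
        (N * κ * W a (ell a κ x) / ee a κ x) / 2 * (y - x) ^ 2 := by
      field_simp
      ring
    rw [t8] at t7
    nlinarith [sq_nonneg (y - x)]

/-- the map from the cube to the section at height `s` -/
noncomputable def th (a κ : ℝ) {N : ℕ} (s : ℝ) (w : Fin N → ℝ) : Fin N → ℝ :=
  fun i => q a (w i * ee a κ s)

/-- its derivative in `s` -/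
noncomputable def ta (a κ : ℝ) {N : ℕ} (s : ℝ) (w : Fin N → ℝ) : Fin N → ℝ :=
  fun i => w i * (W a (ell a κ s) * (-(κ * s))) * (W a (q a (w i * ee a κ s)))⁻¹

theorem th_cont (a κ : ℝ) {N : ℕ} : Continuous (Function.uncurry fun (s : ℝ) (w : Fin N → ℝ) =>
    th a κ s w) := by
  apply continuous_pi
  intro i
  have h1 : Continuous fun z : ℝ × (Fin N → ℝ) => z.2 i * ee a κ z.1 :=
    ((continuous_apply i).comp continuous_snd).mul ((ee_cont a κ).comp continuous_fst)
  exact (q_cont a).comp h1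

theorem ta_cont (a κ : ℝ) {N : ℕ} : Continuous (Function.uncurry fun (s : ℝ) (w : Fin N → ℝ) =>
    ta a κ s w) := by
  apply continuous_pi
  intro i
  have h0 : Continuous fun z : ℝ × (Fin N → ℝ) => z.2 i := (continuous_apply i).comp continuous_snd
  have h1 : Continuous fun z : ℝ × (Fin N → ℝ) => z.2 i * ee a κ z.1 :=
    h0.mul ((ee_cont a κ).comp continuous_fst)
  have h2 : Continuous fun z : ℝ × (Fin N → ℝ) => W a (q a (z.2 i * ee a κ z.1)) :=
    (W_cont a).comp ((q_cont a).comp h1)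
  have h3 : Continuous fun z : ℝ × (Fin N → ℝ) => W a (ell a κ z.1) * (-(κ * z.1)) :=
    ((W_cont a).comp ((ell_cont a κ).comp continuous_fst)).mul (by fun_prop)
  exact (h0.mul h3).mul (h2.inv₀ fun z => (W_pos a _).ne')

theorem th_deriv (a κ : ℝ) {N : ℕ} (s : ℝ) (w : Fin N → ℝ) :
    HasDerivAt (fun s => th a κ s w) (ta a κ s w) s := by
  rw [hasDerivAt_pi]
  intro i
  have h1 := (q_deriv a (w i * ee a κ s)).comp s ((ee_deriv a κ s).const_mul (w i))
  refine h1.congr_deriv ?_
  unfold ta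
  ring

theorem Par.ta_le (h : Par a κ L N) {s : ℝ} (hs : s ∈ Icc (-L) L) {w : Fin N → ℝ}
    (hw : ∀ i, w i ∈ Icc (-1 : ℝ) 1) : ∑ i, (ta a κ s w i) ^ 2 ≤ 1 := by
  have hl := h.ell_pos hs
  have h1 : ∀ i, (ta a κ s w i) ^ 2 ≤ (κ * L) ^ 2 := by
    intro i
    have e1 : |w i| ≤ 1 := abs_le.2 (hw i)
    have e2 : |q a (w i * ee a κ s)| ≤ |ell a κ s| := by
      rw [abs_of_pos hl]
      exact q_abs hl.le e1
    have e3 := W_anti a e2
    have p1 := W_pos a (ell a κ s)
    have p2 := W_pos a (q a (w i * ee a κ s))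
    have e4 : W a (ell a κ s) * (W a (q a (w i * ee a κ s)))⁻¹ ≤ 1 := by
      rw [← div_eq_mul_inv, div_le_one p2]
      exact e3
    have e5 : 0 ≤ W a (ell a κ s) * (W a (q a (w i * ee a κ s)))⁻¹ := by positivity
    have e6 : ta a κ s w i = -(w i * (κ * s)) * (W a (ell a κ s) *
        (W a (q a (w i * ee a κ s)))⁻¹) := by unfold ta; ring
    have e7 : |s| ≤ L := abs_le.2 hs
    have hκ := h.hκ
    have e8 : |ta a κ s w i| ≤ κ * L := by
      rw [e6, abs_mul, abs_neg, abs_mul, abs_mul, abs_of_pos hκ, abs_of_nonneg e5]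
      calc |w i| * (κ * |s|) * (W a (ell a κ s) * (W a (q a (w i * ee a κ s)))⁻¹)
          ≤ 1 * (κ * L) * 1 := by
            have hL := h.hL
            have : 0 ≤ κ * L := by positivity
            gcongr
        _ = κ * L := by ring
    calc (ta a κ s w i) ^ 2 = |ta a κ s w i| ^ 2 := (sq_abs _).symm
      _ ≤ (κ * L) ^ 2 := by gcongr
  calc ∑ i, (ta a κ s w i) ^ 2 ≤ ∑ i : Fin N, (κ * L) ^ 2 := Finset.sum_le_sum fun i _ => h1 i
    _ = N * (κ * L) ^ 2 := by simp
    _ ≤ 1 := h.h2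

/-- Cauchy-Schwarz for directional derivatives -/
theorem fderiv_sq_le {n : ℕ} (G : (Fin n → ℝ) → ℝ) (x v : Fin n → ℝ) :
    (fderiv ℝ G x v) ^ 2 ≤ (∑ i, v i ^ 2) * gradSq G x := by
  have h1 : v = ∑ i, v i • (Pi.single i (1 : ℝ) : Fin n → ℝ) := by
    ext j
    simp [Finset.sum_apply, Pi.single_apply]
  have h2 : fderiv ℝ G x v = ∑ i, v i * fderiv ℝ G x (Pi.single i 1) := by
    conv_lhs => rw [h1]
    rw [map_sum]
    simp
  rw [h2]
  exact Finset.sum_mul_sq_le_sq_mul_sq _ _ _

theorem ent_map {Ω Ω' : Type*} [TopologicalSpace Ω] [MeasurableSpace Ω] [BorelSpace Ω]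
    [TopologicalSpace Ω'] [MeasurableSpace Ω'] [BorelSpace Ω'] [SecondCountableTopology Ω']
    (μ : Measure Ω)
    {Ψ : Ω → Ω'} (hΨ : Continuous Ψ) {G : Ω' → ℝ} (hG : Continuous G) (hp : ∀ x, 0 < G x) :
    ent (μ.map Ψ) G = ent μ (fun x => G (Ψ x)) := by
  have h2 : Continuous fun x => G x * Real.log (G x) := hG.mul (hG.log fun x => (hp x).ne')
  unfold ent
  rw [integral_map hΨ.aemeasurable h2.aestronglyMeasurable,
    integral_map hΨ.aemeasurable hG.aestronglyMeasurable]

theorem ent_cont {k : ℕ} {μ : Measure (Fin k → ℝ)} [IsProbabilityMeasure μ] {K : Set (Fin k → ℝ)}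
    (hK : IsCompact K) (h0 : μ Kᶜ = 0) {F : ℝ → (Fin k → ℝ) → ℝ}
    (hF : Continuous (Function.uncurry F)) (hp : ∀ t x, 0 < F t x) :
    Continuous fun t => ent μ (F t) := by
  unfold ent
  have hm : Continuous fun t => ∫ y, F t y ∂μ := cont_param hK h0 hF
  have hmp : ∀ t, 0 < ∫ y, F t y ∂μ := by
    intro t
    rw [integral_pos_iff_support_of_nonneg (fun x => (hp _ _).le)
      (integrable_cpt hK h0 (hF.comp (by fun_prop : Continuous fun y : Fin k → ℝ => (t, y))))]
    have : Function.support (fun y : Fin k → ℝ => F t y) = univ := by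
      ext x; simp [(hp _ _).ne']
    rw [this]; simp
  refine Continuous.sub ?_ (hm.mul (hm.log fun t => (hmp t).ne'))
  have hF' : Continuous fun z : ℝ × (Fin k → ℝ) => F z.1 z.2 := hF
  exact cont_param hK h0 (F := fun t y => F t y * Real.log (F t y))
    (hF'.mul (hF'.log fun z => (hp _ _).ne'))

/-- the measure -/
noncomputable def PM (a κ L : ℝ) (N : ℕ) : Measure (Fin (N + 1) → ℝ) :=
  ((lam a κ L N).prod (Measure.pi fun _ : Fin N => un)).map
    (fun z => (Fin.cons z.1 (th a κ z.1 z.2) : Fin (N + 1) → ℝ))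

theorem psi_cont (a κ : ℝ) (N : ℕ) : Continuous (fun z : ℝ × (Fin N → ℝ) =>
    (Fin.cons z.1 (th a κ z.1 z.2) : Fin (N + 1) → ℝ)) := by
  have h1 : Continuous fun z : ℝ × (Fin N → ℝ) => (z.1, th a κ z.1 z.2) :=
    continuous_fst.prodMk (th_cont a κ)
  exact cons_cont.comp h1

theorem Par.map_th (h : Par a κ L N) {s : ℝ} (hs : s ∈ Icc (-L) L) :
    (Measure.pi fun _ : Fin N => un).map (fun w => th a κ s w) =
      Measure.pi fun _ : Fin N => gm (-(ell a κ s)) (ell a κ s) (W a) := by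
  have hl := h.ell_pos hs
  have hm : Continuous fun w : ℝ => q a (w * ee a κ s) := (q_cont a).comp (by fun_prop)
  have hpr : IsProbabilityMeasure (un.map fun w : ℝ => q a (w * ee a κ s)) :=
    Measure.isProbabilityMeasure_map hm.aemeasurable
  have h1 := Measure.pi_map_pi (ι := Fin N) (X := fun _ => ℝ) (Y := fun _ => ℝ)
    (μ := fun _ => un) (f := fun _ w => q a (w * ee a κ s)) (fun _ => hm.aemeasurable)
  have h2 : un.map (fun w => q a (w * ee a κ s)) = gm (-(ell a κ s)) (ell a κ s) (W a) :=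
    map_un hl
  rw [h2] at h1
  exact h1

theorem cube_compl (N : ℕ) : (Measure.pi fun _ : Fin N => un)
    (univ.pi fun _ : Fin N => Icc (-1 : ℝ) 1)ᶜ = 0 :=
  pi_compl un (gm_compl _ _ _)

theorem Par.lsi (h : Par a κ L N) : LSIn (PM a κ L N) (3 / 2) := by
  intro G hG hp
  have hlp := h.lam_prob
  have hL := h.hL
  set ν := lam a κ L N with hν
  set μ : Measure (Fin N → ℝ) := Measure.pi fun _ : Fin N => un with hμ
  have hν0 : ν (Icc (-L) L)ᶜ = 0 := gm_compl _ _ _
  set K : Set (Fin N → ℝ) := univ.pi fun _ : Fin N => Icc (-1 : ℝ) 1 with hKd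
  have hK : IsCompact K := isCompact_univ_pi fun _ => isCompact_Icc
  have hK0 : μ Kᶜ = 0 := cube_compl N
  have hGc : Continuous G := hG.continuous
  have hfd : Continuous (fderiv ℝ G) := hG.continuous_fderiv (by norm_num)
  have hgs : Continuous (gradSq G) := gradSq_cont hG
  have hψ := psi_cont a κ N
  have hd : ∀ (t : ℝ) (w : Fin N → ℝ), HasDerivAt (fun s => G (Fin.cons s (th a κ s w)))
      (fderiv ℝ G (Fin.cons t (th a κ t w)) (Fin.cons 1 (ta a κ t w))) t := by
    intro t w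
    have h1 : HasDerivAt (fun s : ℝ => (Fin.cons s (th a κ s w) : Fin (N + 1) → ℝ))
        (Fin.cons 1 (ta a κ t w)) t := by
      rw [hasDerivAt_pi]
      intro i
      refine Fin.cases ?_ (fun j => ?_) i
      · simpa using hasDerivAt_id' t
      · have := (hasDerivAt_pi.1 (th_deriv a κ t w)) j
        simpa using this
    exact ((hG.differentiable (by norm_num)) _).hasFDerivAt.comp_hasDerivAt t h1
  have hv : Continuous fun z : ℝ × (Fin N → ℝ) => (Fin.cons 1 (ta a κ z.1 z.2) :
      Fin (N + 1) → ℝ) := by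
    have h1 : Continuous fun z : ℝ × (Fin N → ℝ) => ((1 : ℝ), ta a κ z.1 z.2) :=
      continuous_const.prodMk (ta_cont a κ)
    exact cons_cont.comp h1
  have hDc : Continuous fun z : ℝ × (Fin N → ℝ) =>
      fderiv ℝ G (Fin.cons z.1 (th a κ z.1 z.2)) (Fin.cons 1 (ta a κ z.1 z.2)) :=
    (hfd.comp hψ).clm_apply hv
  have key := fiber h.lam_lsi isCompact_Icc hν0 hK hK0
    (G := fun t w => G (Fin.cons t (th a κ t w)))
    (D := fun t w => fderiv ℝ G (Fin.cons t (th a κ t w)) (Fin.cons 1 (ta a κ t w)))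
    (hGc.comp hψ) hDc hd (fun t w => hp _)
  -- the integrals of the gradient
  have hQ : Continuous fun z : ℝ × (Fin N → ℝ) => gradSq G (Fin.cons z.1 (th a κ z.1 z.2)) /
      G (Fin.cons z.1 (th a κ z.1 z.2)) :=
    (hgs.comp hψ).div (hGc.comp hψ) fun z => (hp _).ne'
  have hD2 : Continuous fun z : ℝ × (Fin N → ℝ) =>
      (fderiv ℝ G (Fin.cons z.1 (th a κ z.1 z.2)) (Fin.cons 1 (ta a κ z.1 z.2))) ^ 2 /
      G (Fin.cons z.1 (th a κ z.1 z.2)) :=
    (hDc.pow 2).div (hGc.comp hψ) fun z => (hp _).ne'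
  have hprod0 : (ν.prod μ) (Icc (-L) L ×ˢ K)ᶜ = 0 := by
    have e : (Icc (-L) L ×ˢ K)ᶜ ⊆ ((Icc (-L) L)ᶜ ×ˢ univ) ∪ (univ ×ˢ Kᶜ) := by
      intro z hz
      by_cases h : z.1 ∈ Icc (-L) L
      · right; exact ⟨mem_univ _, fun h2 => hz ⟨h, h2⟩⟩
      · left; exact ⟨h, mem_univ _⟩
    apply measure_mono_null e
    apply measure_union_null
    · rw [Measure.prod_prod, hν0, zero_mul]
    · rw [Measure.prod_prod, hK0, mul_zero]
  set A : ℝ → ℝ := fun t => ∫ w, gradSq G (Fin.cons t (th a κ t w)) /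
    G (Fin.cons t (th a κ t w)) ∂μ with hA
  have hAc : Continuous A := cont_param hK hK0 (F := fun t w => gradSq G (Fin.cons t (th a κ t w)) /
    G (Fin.cons t (th a κ t w))) hQ
  have hgc : Continuous fun x => gradSq G x / G x := hgs.div hGc fun x => (hp x).ne'
  have e2 : ∫ x, gradSq G x / G x ∂(PM a κ L N) = ∫ t, A t ∂ν := by
    unfold PM
    rw [integral_map hψ.aemeasurable hgc.aestronglyMeasurable]
    exact integral_prod _ (integrable_cpt (isCompact_Icc.prod hK) hprod0 hQ)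
  have e1 : ent (PM a κ L N) G = ent (ν.prod μ) (fun z => G (Fin.cons z.1 (th a κ z.1 z.2))) := by
    unfold PM
    rw [ent_map _ hψ hGc hp]
  have hsec : ∀ t : ℝ, Continuous fun w : Fin N → ℝ => (t, w) := fun t => by fun_prop
  have hentc : Continuous fun t => ent μ (fun w => G (Fin.cons t (th a κ t w))) :=
    ent_cont hK hK0 (F := fun t w => G (Fin.cons t (th a κ t w))) (hGc.comp hψ) fun t w => hp _
  have hae : ∀ᵐ t ∂ν, t ∈ Icc (-L) L := by
    rw [ae_iff]; exact hν0
  have haeK : ∀ᵐ w ∂μ, w ∈ K := by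
    rw [ae_iff]; exact hK0
  have b1 : ∀ t ∈ Icc (-L) L, ent μ (fun w => G (Fin.cons t (th a κ t w))) ≤ 1 / 2 * A t := by
    intro t ht
    have hl := h.ell_pos ht
    have hla : ell a κ t ≤ |a| := by rw [abs_of_pos h.ha]; exact h.ell_le t
    have hgp : IsProbabilityMeasure (gm (-(ell a κ t)) (ell a κ t) (W a)) :=
      gm_prob (by linarith) (W_cont a) fun x _ => W_pos a x
    have h1 := lsi_pi _ (lsi_gauss hl hla) isCompact_Icc (gm_compl _ _ _) N
    rw [← h.map_th ht] at h1
    have hcd : ContDiff ℝ 1 fun y : Fin N → ℝ => G (Fin.cons t y) := hG.comp (cons_contDiff t)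
    have h2 := h1 (fun y => G (Fin.cons t y)) hcd fun y => hp _
    have hth : Continuous fun w : Fin N → ℝ => th a κ t w := (th_cont a κ).comp (hsec t)
    rw [ent_map _ hth hcd.continuous fun y => hp _] at h2
    have hqc : Continuous fun y : Fin N → ℝ => gradSq (fun y => G (Fin.cons t y)) y /
        G (Fin.cons t y) := (gradSq_cont hcd).div hcd.continuous fun y => (hp _).ne'
    rw [integral_map hth.aemeasurable hqc.aestronglyMeasurable] at h2
    refine h2.trans ?_
    apply mul_le_mul_of_nonneg_left _ (by norm_num)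
    apply integral_mono (integrable_cpt hK hK0 (hqc.comp hth))
      (integrable_cpt hK hK0 (hQ.comp (hsec t)))
    intro w
    simp only [Function.comp]
    rw [gradSq_split hG]
    have := hp (Fin.cons t (th a κ t w))
    gcongr
    have := sq_nonneg (fderiv ℝ G (Fin.cons t (th a κ t w)) (Pi.single 0 1))
    linarith
  have b2 : ∀ t ∈ Icc (-L) L,
      ∫ w, (fderiv ℝ G (Fin.cons t (th a κ t w)) (Fin.cons 1 (ta a κ t w))) ^ 2 /
      G (Fin.cons t (th a κ t w)) ∂μ ≤ 2 * A t := by
    intro t ht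
    rw [hA]
    simp only
    rw [← integral_const_mul]
    apply integral_mono_ae (integrable_cpt hK hK0 (hD2.comp (hsec t)))
      ((integrable_cpt hK hK0 (hQ.comp (hsec t))).const_mul _)
    filter_upwards [haeK] with w hw
    have hw' : ∀ i, w i ∈ Icc (-1 : ℝ) 1 := fun i => hw i (mem_univ i)
    have h1 := fderiv_sq_le G (Fin.cons t (th a κ t w)) (Fin.cons 1 (ta a κ t w))
    have h2 : ∑ i, (Fin.cons 1 (ta a κ t w) : Fin (N + 1) → ℝ) i ^ 2 ≤ 2 := by
      rw [Fin.sum_univ_succ]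
      simp only [Fin.cons_zero, Fin.cons_succ]
      have := h.ta_le ht hw'
      linarith
    have h3 : 0 ≤ gradSq G (Fin.cons t (th a κ t w)) := Finset.sum_nonneg fun i _ => sq_nonneg _
    have h4 := hp (Fin.cons t (th a κ t w))
    simp only [Function.comp]
    rw [← mul_div_assoc]
    gcongr
    exact h1.trans (by gcongr)
  have hIc : Continuous fun t => ∫ w, (fderiv ℝ G (Fin.cons t (th a κ t w))
      (Fin.cons 1 (ta a κ t w))) ^ 2 / G (Fin.cons t (th a κ t w)) ∂μ :=
    cont_param hK hK0 (F := fun t w => (fderiv ℝ G (Fin.cons t (th a κ t w))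
      (Fin.cons 1 (ta a κ t w))) ^ 2 / G (Fin.cons t (th a κ t w))) hD2
  have c1 : ∫ t, ent μ (fun w => G (Fin.cons t (th a κ t w))) ∂ν ≤ ∫ t, 1 / 2 * A t ∂ν := by
    apply integral_mono_ae (integrable_cpt isCompact_Icc hν0 hentc)
      ((integrable_cpt isCompact_Icc hν0 hAc).const_mul _)
    filter_upwards [hae] with t ht using b1 t ht
  have c2 : ∫ t, (∫ w, (fderiv ℝ G (Fin.cons t (th a κ t w)) (Fin.cons 1 (ta a κ t w))) ^ 2 /
      G (Fin.cons t (th a κ t w)) ∂μ) ∂ν ≤ ∫ t, 2 * A t ∂ν := by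
    apply integral_mono_ae (integrable_cpt isCompact_Icc hν0 hIc)
      ((integrable_cpt isCompact_Icc hν0 hAc).const_mul _)
    filter_upwards [hae] with t ht using b2 t ht
  rw [integral_const_mul] at c1 c2
  rw [e1, e2]
  linarith

end Pool.Agent.X166.LT
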