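import Pool.Agent.X166.LT.T5
import Pool.Agent.H212R2.KLS.T1
import Pool.Agent.H988R2.Gauss

/-!
# The density of the example, log-concavity, symmetry
-/

set_option autoImplicit false
set_option linter.unusedSectionVars false
set_option linter.unusedVariables false
open MeasureTheory Set Filter
open scoped Topology Interval ENNReal Pointwise

namespace Pool.Agent.X166.LT

/-- log-concave measures -/
def LCM {n : ℕ} (μ : Measure (Fin n → ℝ)) : Prop :=
  ∀ A B : Set (Fin n → ℝ), IsCompact A → IsCompact B → A.Nonempty → B.Nonempty →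
    ∀ t ∈ Icc (0 : ℝ) 1, μ A ^ t * μ B ^ (1 - t) ≤ μ (t • A + (1 - t) • B)

theorem lcm_of_density {n : ℕ} {ψ : (Fin n → ℝ) → ℝ≥0∞} (hψ : Measurable ψ)
    (H : ∀ (x y : Fin n → ℝ) (t : ℝ), 0 < t → t < 1 →
      ψ x ^ (1 - t) * ψ y ^ t ≤ ψ ((1 - t) • x + t • y)) :
    LCM (volume.withDensity ψ) := by
  intro A B hA hB hA0 hB0 t ht
  rcases ht.1.lt_or_eq with h0 | h0
  · rcases ht.2.lt_or_eq with h1 | h1
    · have hC : IsCompact (t • A + (1 - t) • B) := (hA.smul t).add (hB.smul (1 - t))
      have hAm := hA.measurableSet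
      have hBm := hB.measurableSet
      have hCm := hC.measurableSet
      rw [withDensity_apply _ hAm, withDensity_apply _ hBm, withDensity_apply _ hCm,
        ← lintegral_indicator hAm, ← lintegral_indicator hBm, ← lintegral_indicator hCm]
      have key := Pool.Agent.H212R2.KLS.PLt.pln (1 - t) (by linarith) (by linarith) n
        (A.indicator ψ) (B.indicator ψ) ((t • A + (1 - t) • B).indicator ψ)
        (hψ.indicator hAm) (hψ.indicator hBm) (hψ.indicator hCm) (by
          intro x y
          by_cases hx : x ∈ A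
          · by_cases hy : y ∈ B
            · have hz : (1 - (1 - t)) • x + (1 - t) • y ∈ t • A + (1 - t) • B := by
                rw [sub_sub_cancel]
                exact Set.add_mem_add (Set.smul_mem_smul_set hx) (Set.smul_mem_smul_set hy)
              rw [indicator_of_mem hx, indicator_of_mem hy, indicator_of_mem hz]
              exact H x y (1 - t) (by linarith) (by linarith)
            · rw [indicator_of_notMem hy, ENNReal.zero_rpow_of_pos (by linarith), mul_zero]
              exact zero_le
          · rw [indicator_of_notMem hx, ENNReal.zero_rpow_of_pos (by linarith), zero_mul]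
            exact zero_le)
      rw [sub_sub_cancel] at key
      exact key
    · subst h1
      simp only [ENNReal.rpow_one, sub_self, ENNReal.rpow_zero, mul_one, one_smul]
      rw [Set.zero_smul_set hB0, add_zero]
  · subst h0
    simp only [ENNReal.rpow_zero, sub_zero, ENNReal.rpow_one, one_mul, one_smul]
    rw [Set.zero_smul_set hA0, zero_add]

theorem lcm_map {n : ℕ} {μ : Measure (Fin n → ℝ)} (h : LCM μ)
    (e : (Fin n → ℝ) ≃L[ℝ] (Fin n → ℝ)) : LCM (μ.map e) := by
  intro A B hA hB hA0 hB0 t ht
  have hC : IsCompact (t • A + (1 - t) • B) := (hA.smul t).add (hB.smul (1 - t))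
  have hm : Measurable e := e.continuous.measurable
  rw [Measure.map_apply hm hA.measurableSet, Measure.map_apply hm hB.measurableSet,
    Measure.map_apply hm hC.measurableSet]
  have h1 : ∀ S : Set (Fin n → ℝ), IsCompact S → IsCompact (e ⁻¹' S) := by
    intro S hS
    have : e ⁻¹' S = e.symm '' S := by
      ext x
      constructor
      · intro hx
        exact ⟨e x, hx, by simp⟩
      · rintro ⟨y, hy, rfl⟩
        simpa using hy
    rw [this]
    exact hS.image e.symm.continuous
  have h2 : ∀ S : Set (Fin n → ℝ), S.Nonempty → (e ⁻¹' S).Nonempty := by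
    intro S hS
    obtain ⟨y, hy⟩ := hS
    exact ⟨e.symm y, by simpa using hy⟩
  refine (h _ _ (h1 A hA) (h1 B hB) (h2 A hA0) (h2 B hB0) t ht).trans ?_
  apply measure_mono
  rintro z ⟨x, ⟨x', hx', rfl⟩, y, ⟨y', hy', rfl⟩, rfl⟩
  simp only [mem_preimage, map_add, map_smul] at hx' hy' ⊢
  exact ⟨_, ⟨_, hx', rfl⟩, _, ⟨_, hy', rfl⟩, rfl⟩

variable {a κ L : ℝ} {N : ℕ}

/-- the convex body -/
def bodyK (a κ L : ℝ) (N : ℕ) : Set (Fin (N + 1) → ℝ) :=
  {x | x 0 ∈ Icc (-L) L ∧ ∀ i : Fin N, |x i.succ| ≤ ell a κ (x 0)}

theorem bodyK_closed (a κ L : ℝ) (N : ℕ) : IsClosed (bodyK a κ L N) := by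
  have h1 : IsClosed {x : Fin (N + 1) → ℝ | x 0 ∈ Icc (-L) L} :=
    isClosed_Icc.preimage (continuous_apply 0)
  have h2 : IsClosed {x : Fin (N + 1) → ℝ | ∀ i : Fin N, |x i.succ| ≤ ell a κ (x 0)} := by
    rw [Set.ofPred_forall]
    apply isClosed_iInter
    intro i
    exact isClosed_le (continuous_abs.comp (continuous_apply _))
      ((ell_cont a κ).comp (continuous_apply 0))
  exact h1.inter h2

theorem ell_concave {a κ : ℝ} (hκ : 0 ≤ κ) {t s s' : ℝ} (h0 : 0 ≤ t) (h1 : t ≤ 1) :
    (1 - t) * ell a κ s + t * ell a κ s' ≤ ell a κ ((1 - t) * s + t * s') := by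
  unfold ell
  have : 0 ≤ κ * ((1 - t) * t * (s - s') ^ 2) := by
    have := sub_nonneg.2 h1
    positivity
  nlinarith

theorem bodyK_convex {a κ : ℝ} (hκ : 0 ≤ κ) (L : ℝ) (N : ℕ) : Convex ℝ (bodyK a κ L N) := by
  intro x hx y hy p q' hp hq hpq
  obtain rfl : p = 1 - q' := by linarith
  obtain ⟨hx0, hx1⟩ := hx
  obtain ⟨hy0, hy1⟩ := hy
  refine ⟨?_, ?_⟩
  · have := (convex_Icc (-L) L) hx0 hy0 hp hq hpq
    simpa using this
  · intro i
    have h1 := ell_concave (a := a) hκ (s := x 0) (s' := y 0) hq (by linarith : q' ≤ 1)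
    simp only [Pi.add_apply, Pi.smul_apply, smul_eq_mul]
    calc |(1 - q') * x i.succ + q' * y i.succ| ≤ |(1 - q') * x i.succ| + |q' * y i.succ| :=
          abs_add_le _ _
      _ = (1 - q') * |x i.succ| + q' * |y i.succ| := by
          rw [abs_mul, abs_mul, abs_of_nonneg hp, abs_of_nonneg hq]
      _ ≤ (1 - q') * ell a κ (x 0) + q' * ell a κ (y 0) := by
          gcongr
          · exact hx1 i
          · exact hy1 i
      _ ≤ _ := h1

theorem bodyK_bounded (h : Par a κ L N) : bodyK a κ L N ⊆ Icc (fun _ => -(max L a)) (fun _ => max L a) := by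
  intro x hx
  obtain ⟨hx0, hx1⟩ := hx
  have e1 := le_max_left L a
  have e2 := le_max_right L a
  rw [mem_Icc, Pi.le_def, Pi.le_def]
  constructor
  · intro i
    refine Fin.cases ?_ (fun j => ?_) i
    · have := hx0.1
      linarith
    · have h1 := (abs_le.1 ((hx1 j).trans (h.ell_le _))).1
      linarith
  · intro i
    refine Fin.cases ?_ (fun j => ?_) i
    · have := hx0.2
      linarith
    · have h1 := (abs_le.1 ((hx1 j).trans (h.ell_le _))).2
      linarith

theorem bodyK_compact (h : Par a κ L N) : IsCompact (bodyK a κ L N) :=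
  isCompact_Icc.of_isClosed_subset (bodyK_closed a κ L N) (bodyK_bounded h)

/-- the normalising constant -/
noncomputable def cK (a κ L : ℝ) (N : ℕ) : ℝ :=
  ((∫ s in (-L)..L, ee a κ s ^ N) * 2 ^ N)⁻¹

/-- the density -/
noncomputable def dens (a κ L : ℝ) (N : ℕ) : (Fin (N + 1) → ℝ) → ℝ≥0∞ :=
  (bodyK a κ L N).indicator fun x =>
    ENNReal.ofReal (cK a κ L N * Real.exp (-(∑ i : Fin N, (x i.succ) ^ 2) / 2))

theorem dens_meas (a κ L : ℝ) (N : ℕ) : Measurable (dens a κ L N) := by
  unfold dens
  apply Measurable.indicator _ (bodyK_closed a κ L N).measurableSet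
  fun_prop

theorem Par.intpos (h : Par a κ L N) : 0 < ∫ s in (-L)..L, ee a κ s ^ N :=
  int_pos (by have := h.hL; linarith) ((ee_cont a κ).pow N) (fun s hs => pow_pos (h.ee_pos hs) N)

theorem Par.cK_pos (h : Par a κ L N) : 0 < cK a κ L N := by
  unfold cK
  have := h.intpos
  positivity

theorem dens_lc (h : Par a κ L N) (x y : Fin (N + 1) → ℝ) (t : ℝ) (h0 : 0 < t) (h1 : t < 1) :
    dens a κ L N x ^ (1 - t) * dens a κ L N y ^ t ≤ dens a κ L N ((1 - t) • x + t • y) := by
  unfold dens
  by_cases hx : x ∈ bodyK a κ L N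
  · by_cases hy : y ∈ bodyK a κ L N
    · have hz : (1 - t) • x + t • y ∈ bodyK a κ L N :=
        bodyK_convex h.hκ.le L N hx hy (by linarith) h0.le (by ring)
      rw [indicator_of_mem hx, indicator_of_mem hy, indicator_of_mem hz]
      have hc := h.cK_pos
      have p1 : 0 < cK a κ L N * Real.exp (-(∑ i : Fin N, (x i.succ) ^ 2) / 2) := by positivity
      have p2 : 0 < cK a κ L N * Real.exp (-(∑ i : Fin N, (y i.succ) ^ 2) / 2) := by positivity
      rw [ENNReal.ofReal_rpow_of_pos p1, ENNReal.ofReal_rpow_of_pos p2,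
        ← ENNReal.ofReal_mul (Real.rpow_nonneg p1.le _)]
      apply ENNReal.ofReal_le_ofReal
      rw [Real.mul_rpow hc.le (Real.exp_pos _).le, Real.mul_rpow hc.le (Real.exp_pos _).le,
        ← Real.exp_mul, ← Real.exp_mul]
      have e1 : cK a κ L N ^ (1 - t) * cK a κ L N ^ t = cK a κ L N := by
        rw [← Real.rpow_add hc]
        simp
      calc cK a κ L N ^ (1 - t) * Real.exp (-(∑ i : Fin N, (x i.succ) ^ 2) / 2 * (1 - t)) *
          (cK a κ L N ^ t * Real.exp (-(∑ i : Fin N, (y i.succ) ^ 2) / 2 * t))
          = (cK a κ L N ^ (1 - t) * cK a κ L N ^ t) *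
            (Real.exp (-(∑ i : Fin N, (x i.succ) ^ 2) / 2 * (1 - t)) *
            Real.exp (-(∑ i : Fin N, (y i.succ) ^ 2) / 2 * t)) := by ring
        _ ≤ _ := by
          rw [e1, ← Real.exp_add]
          apply mul_le_mul_of_nonneg_left _ hc.le
          apply Real.exp_le_exp.2
          simp only [Pi.add_apply, Pi.smul_apply, smul_eq_mul]
          have e2 : ∑ i : Fin N, ((1 - t) * x i.succ + t * y i.succ) ^ 2 ≤
              (1 - t) * ∑ i : Fin N, (x i.succ) ^ 2 + t * ∑ i : Fin N, (y i.succ) ^ 2 := by
            rw [Finset.mul_sum, Finset.mul_sum, ← Finset.sum_add_distrib]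
            apply Finset.sum_le_sum
            intro i _
            have : 0 ≤ (1 - t) * t * (x i.succ - y i.succ) ^ 2 := by
              have := sub_pos.2 h1
              positivity
            nlinarith
          linarith
    · rw [indicator_of_notMem hy, ENNReal.zero_rpow_of_pos h0, mul_zero]
      exact zero_le
  · rw [indicator_of_notMem hx, ENNReal.zero_rpow_of_pos (by linarith), zero_mul]
    exact zero_le

/-- the law of the section as a measure with density -/
theorem sec_dens {s : ℝ} (hl : 0 < ell a κ s) :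
    (Measure.pi fun _ : Fin N => gm (-(ell a κ s)) (ell a κ s) (W a)) =
      (volume : Measure (Fin N → ℝ)).withDensity (fun y => ∏ i, (Icc (-(ell a κ s)) (ell a κ s)).indicator
        (fun x => ENNReal.ofReal (W a x / (2 * E a (ell a κ s)))) (y i)) := by
  have h1 : gm (-(ell a κ s)) (ell a κ s) (W a) = (volume : Measure ℝ).withDensity
      ((Icc (-(ell a κ s)) (ell a κ s)).indicator
        (fun x => ENNReal.ofReal (W a x / (2 * E a (ell a κ s))))) := by
    unfold gm
    rw [int_W, withDensity_indicator measurableSet_Icc]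
  have hm : Measurable ((Icc (-(ell a κ s)) (ell a κ s)).indicator
        (fun x => ENNReal.ofReal (W a x / (2 * E a (ell a κ s))))) := by
    apply Measurable.indicator _ measurableSet_Icc
    exact ((W_cont a).div_const _).measurable.ennreal_ofReal
  have hp : IsProbabilityMeasure (gm (-(ell a κ s)) (ell a κ s) (W a)) :=
    gm_prob (by linarith) (W_cont a) (fun x _ => W_pos a x)
  have h2 := Pool.Agent.H988R2.pi_withDensity_real (ι := Fin N)
    (fun _ => (Icc (-(ell a κ s)) (ell a κ s)).indicator
        (fun x => ENNReal.ofReal (W a x / (2 * E a (ell a κ s))))) (fun _ => hm) (fun _ => by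
          rw [← h1]; infer_instance)
  rw [← h2]
  congr 1
  funext _
  exact h1

theorem dens_cons (h : Par a κ L N) (s : ℝ) (y : Fin N → ℝ) :
    (Icc (-L) L).indicator (fun s => ENNReal.ofReal (ee a κ s ^ N / ∫ t in (-L)..L, ee a κ t ^ N)) s *
      ∏ i, (Icc (-(ell a κ s)) (ell a κ s)).indicator
        (fun x => ENNReal.ofReal (W a x / (2 * E a (ell a κ s)))) (y i) =
    dens a κ L N (Fin.cons s y) := by
  unfold dens
  by_cases hs : s ∈ Icc (-L) L
  · rw [indicator_of_mem hs]
    have hl := h.ell_pos hs
    have he := h.ee_pos hs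
    by_cases hy : ∀ i, y i ∈ Icc (-(ell a κ s)) (ell a κ s)
    · have hz : (Fin.cons s y : Fin (N + 1) → ℝ) ∈ bodyK a κ L N := by
        refine ⟨by simpa using hs, fun i => ?_⟩
        simp only [Fin.cons_succ, Fin.cons_zero]
        exact abs_le.2 (hy i)
      rw [indicator_of_mem hz]
      have e1 : ∀ i, (Icc (-(ell a κ s)) (ell a κ s)).indicator
        (fun x => ENNReal.ofReal (W a x / (2 * E a (ell a κ s)))) (y i) =
          ENNReal.ofReal (pg (y i) / (2 * E a (ell a κ s))) := by
        intro i
        rw [indicator_of_mem (hy i), W_eq]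
        rw [abs_of_pos h.ha]
        exact (abs_le.2 (hy i)).trans (h.ell_le s)
      simp only [e1]
      have hA := h.intpos
      have he' : 0 < E a (ell a κ s) := he
      rw [← ENNReal.ofReal_prod_of_nonneg (fun i _ => by
        have := pg_pos (y i)
        positivity), ← ENNReal.ofReal_mul (by positivity)]
      congr 1
      simp only [Fin.cons_succ]
      rw [Finset.prod_div_distrib, Finset.prod_const, Finset.card_univ, Fintype.card_fin]
      unfold pg cK
      rw [← Real.exp_sum, ← Finset.sum_div, Finset.sum_neg_distrib]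
      have e3 : ee a κ s = E a (ell a κ s) := rfl
      rw [← e3]
      field_simp
      rw [mul_pow]
      ring
    · push Not at hy
      obtain ⟨i, hi⟩ := hy
      have hz : (Fin.cons s y : Fin (N + 1) → ℝ) ∉ bodyK a κ L N := by
        intro hz
        apply hi
        have := hz.2 i
        simp only [Fin.cons_succ, Fin.cons_zero] at this
        exact abs_le.1 this
      rw [indicator_of_notMem hz, Finset.prod_eq_zero (Finset.mem_univ i) (indicator_of_notMem hi _),
        mul_zero]
  · have hz : (Fin.cons s y : Fin (N + 1) → ℝ) ∉ bodyK a κ L N := by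
      intro hz
      apply hs
      simpa using hz.1
    rw [indicator_of_notMem hz, indicator_of_notMem hs, zero_mul]

theorem PM_dens (h : Par a κ L N) : PM a κ L N = volume.withDensity (dens a κ L N) := by
  have hlp := h.lam_prob
  have hψ := (psi_cont a κ N).measurable
  ext S hS
  unfold PM
  rw [Measure.map_apply hψ hS, Measure.prod_apply (hψ hS), withDensity_apply _ hS,
    ← lintegral_indicator hS, Pool.Agent.PZ871.PLaux.lintegral_succ N _ ((dens_meas a κ L N).indicator hS)]
  unfold lam gm
  rw [lintegral_withDensity_eq_lintegral_mul₀]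
  · rw [← lintegral_indicator measurableSet_Icc]
    apply lintegral_congr
    intro s
    by_cases hs : s ∈ Icc (-L) L
    · rw [indicator_of_mem hs]
      simp only [Pi.mul_apply]
      have hl := h.ell_pos hs
      have hcm : Measurable fun y : Fin N → ℝ => (Fin.cons s y : Fin (N + 1) → ℝ) :=
        (cons_contDiff s).continuous.measurable
      have hth : Measurable fun w : Fin N → ℝ => th a κ s w :=
        ((th_cont a κ).comp (by fun_prop : Continuous fun w : Fin N → ℝ => (s, w))).measurable
      have e1 : (Measure.pi fun _ : Fin N => un) (Prod.mk s ⁻¹'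
          ((fun z : ℝ × (Fin N → ℝ) => (Fin.cons z.1 (th a κ z.1 z.2) : Fin (N + 1) → ℝ)) ⁻¹' S)) =
          ((Measure.pi fun _ : Fin N => un).map (fun w => th a κ s w))
            ((fun y : Fin N → ℝ => (Fin.cons s y : Fin (N + 1) → ℝ)) ⁻¹' S) := by
        rw [Measure.map_apply hth (hcm hS)]
        rfl
      rw [e1, h.map_th hs, sec_dens hl, withDensity_apply _ (hcm hS), ← lintegral_indicator (hcm hS),
        ← lintegral_const_mul]
      · apply lintegral_congr
        intro y
        by_cases hy : (Fin.cons s y : Fin (N + 1) → ℝ) ∈ S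
        · rw [indicator_of_mem hy, indicator_of_mem (show y ∈ (fun y : Fin N → ℝ =>
            (Fin.cons s y : Fin (N + 1) → ℝ)) ⁻¹' S from hy), ← dens_cons h, indicator_of_mem hs]
        · rw [indicator_of_notMem hy, indicator_of_notMem (show y ∉ (fun y : Fin N → ℝ =>
            (Fin.cons s y : Fin (N + 1) → ℝ)) ⁻¹' S from hy), mul_zero]
      · apply Measurable.indicator _ (hcm hS)
        apply Finset.measurable_fun_prod
        intro i _
        exact (Measurable.indicator ((W_cont a).div_const _).measurable.ennreal_ofReal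
          measurableSet_Icc).comp (measurable_pi_apply i)
    · rw [indicator_of_notMem hs]
      symm
      rw [lintegral_eq_zero_iff']
      · refine Eventually.of_forall fun y => ?_
        simp only [Pi.zero_apply]
        by_cases hy : (Fin.cons s y : Fin (N + 1) → ℝ) ∈ S
        · rw [indicator_of_mem hy, ← dens_cons h, indicator_of_notMem hs, zero_mul]
        · rw [indicator_of_notMem hy]
      · exact (((dens_meas a κ L N).indicator hS).comp
          (cons_contDiff s).continuous.measurable).aemeasurable
  · exact (((ee_cont a κ).pow N).div_const _).measurable.ennreal_ofReal.aemeasurable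
  · exact (measurable_measure_prodMk_left (hψ hS)).aemeasurable

theorem PM_lc (h : Par a κ L N) : LCM (PM a κ L N) := by
  rw [PM_dens h]
  exact lcm_of_density (dens_meas a κ L N) (dens_lc h)

theorem PM_compl (h : Par a κ L N) : PM a κ L N (bodyK a κ L N)ᶜ = 0 := by
  rw [PM_dens h, withDensity_apply _ (bodyK_closed a κ L N).measurableSet.compl,
    ← lintegral_indicator (bodyK_closed a κ L N).measurableSet.compl, lintegral_eq_zero_iff'
    ((dens_meas a κ L N).indicator (bodyK_closed a κ L N).measurableSet.compl).aemeasurable]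
  refine Eventually.of_forall fun x => ?_
  by_cases hx : x ∈ bodyK a κ L N
  · rw [indicator_of_notMem (by simpa using hx)]
    rfl
  · rw [indicator_of_mem (by simpa using hx)]
    unfold dens
    rw [indicator_of_notMem hx]
    rfl

theorem PM_prob (h : Par a κ L N) : IsProbabilityMeasure (PM a κ L N) := by
  have := h.lam_prob
  exact Measure.isProbabilityMeasure_map (psi_cont a κ N).aemeasurable

/-- multiplication of the coordinates by constants -/
def dmul {n : ℕ} (d : Fin n → ℝ) (x : Fin n → ℝ) : Fin n → ℝ := fun i => d i * x i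

theorem PM_sign (h : Par a κ L N) {ε : Fin (N + 1) → ℝ} (hε : ∀ i, ε i = 1 ∨ ε i = -1) :
    (PM a κ L N).map (dmul ε) = PM a κ L N := by
  have h1 : ∀ i, |ε i| = 1 := by
    intro i
    rcases hε i with h | h <;> rw [h] <;> simp
  have h2 : ∀ i, ε i * ε i = 1 := by
    intro i
    rcases hε i with h | h <;> rw [h] <;> simp
  have hd : Measurable (dmul ε) := by
    unfold dmul
    fun_prop
  have hinv : ∀ x, dmul ε (dmul ε x) = x := by
    intro x
    funext i
    unfold dmul
    rw [← mul_assoc, h2, one_mul]
  have hmp : MeasurePreserving (dmul ε) (volume : Measure (Fin (N + 1) → ℝ)) volume := by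
    have := volume_preserving_pi (α' := fun _ : Fin (N + 1) => ℝ) (β' := fun _ : Fin (N + 1) => ℝ)
      (f := fun i x => ε i * x) (fun i => by
        rcases hε i with h | h
        · rw [h]
          simp only [one_mul]
          exact MeasurePreserving.id (volume : Measure ℝ)
        · rw [h]
          simp only [neg_one_mul]
          exact Measure.measurePreserving_neg (volume : Measure ℝ))
    exact this
  have hde : ∀ x, dens a κ L N (dmul ε x) = dens a κ L N x := by
    intro x
    unfold dens
    have e1 : dmul ε x ∈ bodyK a κ L N ↔ x ∈ bodyK a κ L N := by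
      have e2 : ell a κ (ε 0 * x 0) = ell a κ (x 0) := by
        unfold ell
        rw [mul_pow, pow_two (ε 0), h2, one_mul]
      have e3 : ε 0 * x 0 ∈ Icc (-L) L ↔ x 0 ∈ Icc (-L) L := by
        rw [mem_Icc, mem_Icc, ← abs_le, ← abs_le, abs_mul, h1, one_mul]
      unfold bodyK dmul
      simp only [Set.mem_ofPred_eq]
      rw [e3, e2]
      simp only [abs_mul, h1, one_mul]
    by_cases hx : x ∈ bodyK a κ L N
    · rw [indicator_of_mem hx, indicator_of_mem (e1.2 hx)]
      congr 3
      unfold dmul
      simp only [mul_pow, pow_two (ε _), h2, one_mul]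
    · rw [indicator_of_notMem hx, indicator_of_notMem (fun h => hx (e1.1 h))]
  rw [PM_dens h]
  ext S hS
  rw [Measure.map_apply hd hS, withDensity_apply _ (hd hS), withDensity_apply _ hS,
    ← lintegral_indicator (hd hS), ← lintegral_indicator hS]
  rw [← hmp.lintegral_comp ((dens_meas a κ L N).indicator hS)]
  apply lintegral_congr
  intro x
  by_cases hx : dmul ε x ∈ S
  · rw [indicator_of_mem hx, indicator_of_mem (show x ∈ dmul ε ⁻¹' S from hx), hde]
  · rw [indicator_of_notMem hx, indicator_of_notMem (show x ∉ dmul ε ⁻¹' S from hx)]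

end Pool.Agent.X166.LT
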