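import Pool.Agent.X166.LT.T6

/-!
# General facts on logarithmic Sobolev inequalities
-/

set_option autoImplicit false
set_option linter.unusedSectionVars false
set_option linter.unusedVariables false
open MeasureTheory Set Filter
open scoped Topology Interval ENNReal Pointwise

namespace Pool.Agent.X166.LT

theorem gradSq_nonneg {n : ℕ} (f : (Fin n → ℝ) → ℝ) (x : Fin n → ℝ) : 0 ≤ gradSq f x :=
  Finset.sum_nonneg fun i _ => sq_nonneg _

theorem gradSq_sq {n : ℕ} {f : (Fin n → ℝ) → ℝ} (hf : ContDiff ℝ 1 f) (ε : ℝ) (x : Fin n → ℝ) :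
    gradSq (fun x => f x ^ 2 + ε) x = 4 * f x ^ 2 * gradSq f x := by
  have h1 : HasFDerivAt (fun x => f x ^ 2 + ε) ((2 * f x) • fderiv ℝ f x) x := by
    have h := ((hf.differentiable (by norm_num)) x).hasFDerivAt
    have h2 := (h.pow 2).add_const ε
    refine h2.congr_fderiv ?_
    ext v
    simp
  unfold gradSq
  rw [h1.fderiv, Finset.mul_sum]
  apply Finset.sum_congr rfl
  intro i _
  simp only [ContinuousLinearMap.smul_apply, smul_eq_mul]
  ring

/-- from positive functions to squares -/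
theorem lsi_sq {n : ℕ} {μ : Measure (Fin n → ℝ)} [IsProbabilityMeasure μ] {K : Set (Fin n → ℝ)}
    (hK : IsCompact K) (h0 : μ Kᶜ = 0) {c : ℝ} (hc : 0 ≤ c) (h : LSIn μ c)
    {f : (Fin n → ℝ) → ℝ} (hf : ContDiff ℝ 1 f) :
    ent μ (fun x => f x ^ 2) ≤ 4 * c * ∫ x, gradSq f x ∂μ := by
  have hfc := hf.continuous
  have hF : Continuous (Function.uncurry fun (ε : ℝ) (x : Fin n → ℝ) => f x ^ 2 + ε) := by
    have : Continuous fun z : ℝ × (Fin n → ℝ) => f z.2 ^ 2 + z.1 := by fun_prop
    exact this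
  have hFl : Continuous (Function.uncurry fun (ε : ℝ) (x : Fin n → ℝ) =>
      (f x ^ 2 + ε) * Real.log (f x ^ 2 + ε)) := Real.continuous_mul_log.comp hF
  have h1 : Continuous fun ε : ℝ => ent μ (fun x => f x ^ 2 + ε) := by
    unfold ent
    exact (cont_param hK h0 hFl).sub (Real.continuous_mul_log.comp (cont_param hK h0 hF))
  have h2 : ∀ ε : ℝ, 0 < ε → ent μ (fun x => f x ^ 2 + ε) ≤ 4 * c * ∫ x, gradSq f x ∂μ := by
    intro ε hε
    have hp : ∀ x, 0 < f x ^ 2 + ε := fun x => by positivity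
    have hcd : ContDiff ℝ 1 fun x => f x ^ 2 + ε := (hf.pow 2).add contDiff_const
    have h3 := h (fun x => f x ^ 2 + ε) hcd hp
    refine h3.trans ?_
    rw [show 4 * c * ∫ x, gradSq f x ∂μ = c * ∫ x, 4 * gradSq f x ∂μ by
      rw [integral_const_mul]; ring]
    apply mul_le_mul_of_nonneg_left _ hc
    apply integral_mono
    · exact integrable_cpt hK h0 ((gradSq_cont hcd).div hcd.continuous fun x => (hp x).ne')
    · exact integrable_cpt hK h0 (continuous_const.mul (gradSq_cont hf))
    · intro x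
      simp only
      rw [gradSq_sq hf, div_le_iff₀ (hp x)]
      have := gradSq_nonneg f x
      nlinarith [mul_nonneg hε.le this]
  have h4 : Tendsto (fun ε : ℝ => ent μ (fun x => f x ^ 2 + ε)) (𝓝[>] 0)
      (𝓝 (ent μ (fun x => f x ^ 2 + 0))) := h1.continuousAt.tendsto.mono_left nhdsWithin_le_nhds
  simp only [add_zero] at h4
  apply le_of_tendsto h4
  filter_upwards [self_mem_nhdsWithin] with ε hε using h2 ε hε

/-- the entropy of a square dominates the variance -/
theorem var_le_ent {n : ℕ} {μ : Measure (Fin n → ℝ)} [IsProbabilityMeasure μ]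
    {K : Set (Fin n → ℝ)} (hK : IsCompact K) (h0 : μ Kᶜ = 0) {f : (Fin n → ℝ) → ℝ}
    (hf : Continuous f) (hp : ∀ x ∈ K, 0 ≤ f x) :
    (∫ x, f x ^ 2 ∂μ) - (∫ x, f x ∂μ) ^ 2 ≤ ent μ (fun x => f x ^ 2) := by
  have hae : ∀ᵐ x ∂μ, x ∈ K := by
    rw [ae_iff]; exact h0
  have i1 : Integrable (fun x => f x ^ 2) μ := integrable_cpt hK h0 (hf.pow 2)
  have i2 : Integrable f μ := integrable_cpt hK h0 hf
  have i3 : Integrable (fun x => f x ^ 2 * Real.log (f x ^ 2)) μ :=
    integrable_cpt hK h0 (Real.continuous_mul_log.comp (hf.pow 2))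
  have hm0 : 0 ≤ ∫ x, f x ^ 2 ∂μ := integral_nonneg fun x => sq_nonneg _
  set m := ∫ x, f x ^ 2 ∂μ with hm
  set b := ∫ x, f x ∂μ with hb
  rcases hm0.lt_or_eq with hpos | hz
  · set r := Real.sqrt m with hr
    have hr0 : 0 < r := Real.sqrt_pos.2 hpos
    have hr2 : r ^ 2 = m := Real.sq_sqrt hm0
    have key : ∀ x ∈ K, f x ^ 2 * Real.log m + 2 * f x ^ 2 - 2 * r * f x ≤
        f x ^ 2 * Real.log (f x ^ 2) := by
      intro x hx
      rcases (hp x hx).lt_or_eq with h1 | h1
      · have h2 := Real.one_sub_inv_le_log_of_pos (div_pos h1 hr0)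
        rw [Real.log_div h1.ne' hr0.ne', inv_div] at h2
        have h3 : Real.log m = 2 * Real.log r := by
          rw [← hr2, Real.log_pow]; norm_num
        have h4 : Real.log (f x ^ 2) = 2 * Real.log (f x) := by
          rw [Real.log_pow]; norm_num
        rw [h3, h4]
        have h5 : f x ^ 2 * (1 - r / f x) ≤ f x ^ 2 * (Real.log (f x) - Real.log r) :=
          mul_le_mul_of_nonneg_left h2 (sq_nonneg _)
        have h6 : f x ^ 2 * (1 - r / f x) = f x ^ 2 - r * f x := by
          field_simp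
        rw [h6] at h5
        linarith
      · rw [← h1]
        simp
    have h1 : ∫ x, (f x ^ 2 * Real.log m + 2 * f x ^ 2 - 2 * r * f x) ∂μ ≤
        ∫ x, f x ^ 2 * Real.log (f x ^ 2) ∂μ := by
      apply integral_mono_ae ((i1.mul_const _).add (i1.const_mul _) |>.sub (i2.const_mul _)) i3
      filter_upwards [hae] with x hx using key x hx
    have i4 : Integrable (fun x => f x ^ 2 * Real.log m + 2 * f x ^ 2) μ :=
      (i1.mul_const _).add (i1.const_mul _)
    rw [integral_sub i4 (i2.const_mul _),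
      integral_add (i1.mul_const _) (i1.const_mul _), integral_mul_const, integral_const_mul,
      integral_const_mul] at h1
    unfold ent
    rw [← hm]
    rw [← hm, ← hb] at h1
    nlinarith [sq_nonneg (r - b)]
  · have h1 : b = 0 := by
      have h2 : (fun x => f x ^ 2) =ᵐ[μ] 0 :=
        (integral_eq_zero_iff_of_nonneg (fun x => sq_nonneg _) i1).1 (by rw [← hm]; exact hz.symm)
      rw [hb]
      have h3 : f =ᵐ[μ] 0 := by
        filter_upwards [h2] with x hx
        simpa using hx
      rw [integral_congr_ae h3]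
      simp
    unfold ent
    rw [← hm, ← hz, h1]
    simp only [zero_mul, sub_zero]
    have h2 : (fun x => f x ^ 2) =ᵐ[μ] 0 :=
      (integral_eq_zero_iff_of_nonneg (fun x => sq_nonneg _) i1).1 (by rw [← hm]; exact hz.symm)
    have h4 : (fun x => f x ^ 2 * Real.log (f x ^ 2)) =ᵐ[μ] 0 := by
      filter_upwards [h2] with x hx
      simp only [Pi.zero_apply] at hx
      rw [hx]
      simp
    rw [integral_congr_ae h4]
    simp

/-- logarithmic Sobolev inequality for squares of smooth functions -/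
def LSI {n : ℕ} (μ : Measure (Fin n → ℝ)) (C : ℝ) : Prop :=
  ∀ f : (Fin n → ℝ) → ℝ, ContDiff ℝ (⊤ : ℕ∞) f →
    ent μ (fun x => f x ^ 2) ≤ C * ∫ x, gradSq f x ∂μ

/-- variances of coordinates -/
theorem var_coord {n : ℕ} {μ : Measure (Fin n → ℝ)} [IsProbabilityMeasure μ]
    {K : Set (Fin n → ℝ)} (hK : IsCompact K) (h0 : μ Kᶜ = 0) {C : ℝ} (h : LSI μ C) (i : Fin n) :
    (∫ x, x i ^ 2 ∂μ) - (∫ x, x i ∂μ) ^ 2 ≤ C := by
  obtain ⟨M, hM⟩ := hK.exists_bound_of_continuousOn (f := fun x : Fin n → ℝ => x i)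
    (continuous_apply i).continuousOn
  have hc : Continuous fun x : Fin n → ℝ => x i := continuous_apply i
  have hf : Continuous fun x : Fin n → ℝ => x i + M := by fun_prop
  have hcd : ContDiff ℝ (⊤ : ℕ∞) fun x : Fin n → ℝ => x i + M := by fun_prop
  have h1 := var_le_ent hK h0 hf (by
    intro x hx
    have := hM x hx
    rw [Real.norm_eq_abs] at this
    have := (abs_le.1 this).1
    linarith)
  have h2 := h (fun x : Fin n → ℝ => x i + M) hcd
  have h3 : ∀ x, gradSq (fun x : Fin n → ℝ => x i + M) x = 1 := by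
    intro x
    have e1 : HasFDerivAt (fun x : Fin n → ℝ => x i + M)
        (ContinuousLinearMap.proj i : (Fin n → ℝ) →L[ℝ] ℝ) x :=
      (ContinuousLinearMap.proj (R := ℝ) (φ := fun _ : Fin n => ℝ) i).hasFDerivAt.add_const M
    unfold gradSq
    rw [e1.fderiv]
    simp [Pi.single_apply]
  simp only [h3, integral_const, probReal_univ, smul_eq_mul, mul_one] at h2
  have i1 : Integrable (fun x : Fin n → ℝ => x i ^ 2) μ := integrable_cpt hK h0 (hc.pow 2)
  have i2 : Integrable (fun x : Fin n → ℝ => x i) μ := integrable_cpt hK h0 hc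
  have e1 : ∫ x, (x i + M) ^ 2 ∂μ = ∫ x, x i ^ 2 ∂μ + 2 * M * ∫ x, x i ∂μ + M ^ 2 := by
    have : ∀ x : Fin n → ℝ, (x i + M) ^ 2 = x i ^ 2 + 2 * M * x i + M ^ 2 := fun x => by ring
    simp_rw [this]
    have i3 : Integrable (fun x : Fin n → ℝ => x i ^ 2 + 2 * M * x i) μ :=
      i1.add (i2.const_mul _)
    rw [integral_add i3 (integrable_const _), integral_add i1 (i2.const_mul _),
      integral_const_mul, integral_const, probReal_univ]
    simp
  have e2 : ∫ x, (x i + M) ∂μ = ∫ x, x i ∂μ + M := by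
    rw [integral_add i2 (integrable_const _), integral_const, probReal_univ]
    simp
  rw [e1, e2] at h1
  nlinarith

/-- scaling of coordinates -/
theorem lsi_dmul {n : ℕ} {μ : Measure (Fin n → ℝ)} {c D : ℝ} (hc : 0 ≤ c) (h : LSIn μ c)
    {d : Fin n → ℝ} (hd : ∀ i, d i ^ 2 ≤ D) {K : Set (Fin n → ℝ)}
    (hK : IsCompact K) (h0 : μ Kᶜ = 0) [IsFiniteMeasure μ] : LSIn (μ.map (dmul d)) (c * D) := by
  intro G hG hp
  have hdc : Continuous (dmul d) := by
    unfold dmul
    fun_prop
  have hcd : ContDiff ℝ 1 (dmul d) := by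
    unfold dmul
    fun_prop
  have hgs := gradSq_cont hG
  have hGc := hG.continuous
  have hq : Continuous fun x => gradSq G x / G x := hgs.div hGc fun x => (hp x).ne'
  rw [ent_map _ hdc hGc hp, integral_map hdc.aemeasurable hq.aestronglyMeasurable]
  have hcomp : ContDiff ℝ 1 fun x => G (dmul d x) := hG.comp hcd
  refine (h (fun x => G (dmul d x)) hcomp fun x => hp _).trans ?_
  rw [mul_assoc]
  apply mul_le_mul_of_nonneg_left _ hc
  rw [← integral_const_mul]
  apply integral_mono
  · exact integrable_cpt hK h0 ((gradSq_cont hcomp).div hcomp.continuous fun x => (hp _).ne')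
  · exact integrable_cpt hK h0 (continuous_const.mul (hq.comp hdc))
  · intro x
    simp only
    rw [← mul_div_assoc]
    have hG0 := hp (dmul d x)
    gcongr
    unfold gradSq
    rw [Finset.mul_sum]
    apply Finset.sum_le_sum
    intro i _
    have e1 : HasFDerivAt (dmul d) (ContinuousLinearMap.pi fun i =>
        d i • (ContinuousLinearMap.proj i : (Fin n → ℝ) →L[ℝ] ℝ)) x := by
      rw [hasFDerivAt_pi]
      intro i
      exact ((ContinuousLinearMap.proj (R := ℝ) (φ := fun _ : Fin n => ℝ) i).hasFDerivAt).const_mul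
        (d i)
    have e2 := (((hG.differentiable (by norm_num)) (dmul d x)).hasFDerivAt.comp x e1).fderiv
    have e3 : fderiv ℝ (fun x => G (dmul d x)) x = (fderiv ℝ G (dmul d x)).comp
      (ContinuousLinearMap.pi fun i =>
        d i • (ContinuousLinearMap.proj i : (Fin n → ℝ) →L[ℝ] ℝ)) := e2
    rw [e3, ContinuousLinearMap.comp_apply]
    have e4 : (ContinuousLinearMap.pi fun i =>
        d i • (ContinuousLinearMap.proj i : (Fin n → ℝ) →L[ℝ] ℝ)) (Pi.single i 1) =
        d i • (Pi.single i (1 : ℝ) : Fin n → ℝ) := by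
      funext j
      simp only [ContinuousLinearMap.pi_apply, ContinuousLinearMap.smul_apply,
        ContinuousLinearMap.proj_apply, Pi.smul_apply, smul_eq_mul, Pi.single_apply]
      by_cases hij : j = i
      · subst hij; simp
      · simp [hij]
    rw [e4, map_smul, smul_eq_mul, mul_pow]
    exact mul_le_mul_of_nonneg_right (hd i) (sq_nonneg _)

end Pool.Agent.X166.LT
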