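import Pool.Agent.X166.LT.T7

/-!
# Integrals with respect to the example and its Gaussian tilts
-/

set_option autoImplicit false
set_option linter.unusedSectionVars false
set_option linter.unusedVariables false
open MeasureTheory Set Filter
open scoped Topology Interval ENNReal Pointwise

namespace Pool.Agent.X166.LT

variable {a κ L : ℝ} {N : ℕ}

theorem prod_compl {ν : Measure ℝ} [SFinite ν] {μ : Measure (Fin N → ℝ)} [SFinite μ] {J : Set ℝ}
    {K : Set (Fin N → ℝ)} (h1 : ν Jᶜ = 0) (h2 : μ Kᶜ = 0) : (ν.prod μ) (J ×ˢ K)ᶜ = 0 := by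
  have e : (J ×ˢ K)ᶜ ⊆ (Jᶜ ×ˢ univ) ∪ (univ ×ˢ Kᶜ) := by
    intro z hz
    by_cases h : z.1 ∈ J
    · right; exact ⟨mem_univ _, fun h2 => hz ⟨h, h2⟩⟩
    · left; exact ⟨h, mem_univ _⟩
  apply measure_mono_null e
  apply measure_union_null
  · rw [Measure.prod_prod, h1, zero_mul]
  · rw [Measure.prod_prod, h2, mul_zero]

theorem PM_int (h : Par a κ L N) {F : (Fin (N + 1) → ℝ) → ℝ} (hF : Continuous F) :
    ∫ x, F x ∂(PM a κ L N) = (∫ s in (-L)..L, (∫ w, F (Fin.cons s (th a κ s w))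
      ∂(Measure.pi fun _ : Fin N => un)) * ee a κ s ^ N) / ∫ s in (-L)..L, ee a κ s ^ N := by
  have hlp := h.lam_prob
  have hL := h.hL
  have hψ := psi_cont a κ N
  have hcont : Continuous fun z : ℝ × (Fin N → ℝ) => F (Fin.cons z.1 (th a κ z.1 z.2)) :=
    hF.comp hψ
  unfold PM
  rw [integral_map hψ.aemeasurable hF.aestronglyMeasurable]
  have hK : IsCompact (univ.pi fun _ : Fin N => Icc (-1 : ℝ) 1) :=
    isCompact_univ_pi fun _ => isCompact_Icc
  have hν0 : lam a κ L N (Icc (-L) L)ᶜ = 0 := gm_compl _ _ _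
  rw [integral_prod _ (integrable_cpt (isCompact_Icc.prod hK) (prod_compl hν0 (cube_compl N)) hcont)]
  unfold lam
  have hw : Continuous fun s => ee a κ s ^ N := (ee_cont a κ).pow N
  rw [gm_integral (by linarith) hw (fun s hs => pow_pos (h.ee_pos hs) N)]

/-- the Gaussian type weight on a section, one coordinate -/
noncomputable def Hv (a v r : ℝ) : ℝ := (∫ x in (-r)..r, Real.exp (-(v * x ^ 2)) * W a x) / 2

theorem tilt_int (h : Par a κ L N) {φ : ℝ → ℝ} (hφ : Continuous φ) (u v : ℝ) :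
    ∫ x, φ (x 0) * Real.exp (-(u * x 0 ^ 2) - v * ∑ i : Fin N, x i.succ ^ 2) ∂(PM a κ L N) =
      (∫ s in (-L)..L, φ s * (Real.exp (-(u * s ^ 2)) * Hv a v (ell a κ s) ^ N)) /
        ∫ s in (-L)..L, ee a κ s ^ N := by
  have hc : Continuous fun x : Fin (N + 1) → ℝ =>
      φ (x 0) * Real.exp (-(u * x 0 ^ 2) - v * ∑ i : Fin N, x i.succ ^ 2) := by
    fun_prop
  rw [PM_int h hc]
  congr 1
  apply intervalIntegral.integral_congr
  intro s hs
  have hL := h.hL
  rw [uIcc_of_le (by linarith)] at hs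
  have hl := h.ell_pos hs
  have he := h.ee_pos hs
  simp only [Fin.cons_zero, Fin.cons_succ]
  have e1 : ∀ w : Fin N → ℝ, φ s * Real.exp (-(u * s ^ 2) - v * ∑ i : Fin N, th a κ s w i ^ 2) =
      φ s * Real.exp (-(u * s ^ 2)) * ∏ i : Fin N, Real.exp (-(v * q a (w i * ee a κ s) ^ 2)) := by
    intro w
    rw [← Real.exp_sum, Finset.sum_neg_distrib, ← Finset.mul_sum, sub_eq_add_neg, Real.exp_add,
      mul_assoc]
    rfl
  simp_rw [e1]
  rw [integral_const_mul, integral_fintype_prod_eq_prod (𝕜 := ℝ)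
    (fun (_ : Fin N) (x : ℝ) => Real.exp (-(v * q a (x * ee a κ s) ^ 2))), Finset.prod_const,
    Finset.card_univ, Fintype.card_fin, un_integral]
  have e2 := cov (a := a) hl (fun x => Real.exp (-(v * x ^ 2))) (by fun_prop)
  have e3 : ee a κ s = E a (ell a κ s) := rfl
  rw [e3, e2]
  unfold Hv
  rw [e3] at he
  rw [mul_assoc, mul_assoc, ← mul_assoc (Real.exp _), mul_assoc (Real.exp _), ← mul_pow]
  congr 3
  field_simp

theorem second_moment (h : Par a κ L N) (i : Fin N) :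
    ∫ x, x i.succ ^ 2 ∂(PM a κ L N) = (∫ s in (-L)..L,
      ((∫ x in (-(ell a κ s))..(ell a κ s), x ^ 2 * W a x) / (2 * ee a κ s)) * ee a κ s ^ N) /
        ∫ s in (-L)..L, ee a κ s ^ N := by
  have hc : Continuous fun x : Fin (N + 1) → ℝ => x i.succ ^ 2 := by fun_prop
  rw [PM_int h hc]
  congr 1
  apply intervalIntegral.integral_congr
  intro s hs
  have hL := h.hL
  rw [uIcc_of_le (by linarith)] at hs
  have hl := h.ell_pos hs
  have he := h.ee_pos hs
  simp only [Fin.cons_succ]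
  congr 1
  have e0 : ∫ w : Fin N → ℝ, th a κ s w i ^ 2 ∂(Measure.pi fun _ : Fin N => un) =
      ∫ w, q a (w * ee a κ s) ^ 2 ∂un := by
    have hc : Continuous fun w : ℝ => q a (w * ee a κ s) ^ 2 :=
      ((q_cont a).comp (by fun_prop)).pow 2
    exact integral_comp_eval (μ := fun _ : Fin N => un) (i := i)
      (f := fun w : ℝ => q a (w * ee a κ s) ^ 2) hc.aestronglyMeasurable
  rw [e0, un_integral]
  have e2 := cov (a := a) hl (fun x => x ^ 2) (by fun_prop)
  have e3 : ee a κ s = E a (ell a κ s) := rfl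
  rw [e3, e2]
  rw [e3] at he
  field_simp

end Pool.Agent.X166.LT
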