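import Pool.Agent.X166.LT.T8

/-!
# Estimates
-/

set_option autoImplicit false
set_option linter.unusedSectionVars false
set_option linter.unusedVariables false
open MeasureTheory Set Filter
open scoped Topology Interval ENNReal Pointwise

namespace Pool.Agent.X166.LT

/-- the stronger conditions on the parameters -/
structure Par2 (a κ L : ℝ) (N : ℕ) : Prop extends Par a κ L N where
  hL1 : 1 ≤ L
  haL : 1 + 36 * L ^ 2 ≤ a
  h3 : κ * L ^ 2 * a ≤ 1

variable {a κ L : ℝ} {N : ℕ}

theorem exp_half_le : Real.exp (1 / 2) ≤ 2 := by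
  have h1 : Real.exp (1 / 2) ^ 2 = Real.exp 1 := by
    rw [← Real.exp_nat_mul]; norm_num
  have h2 := Real.exp_one_lt_d9
  nlinarith [Real.exp_pos (1 / 2)]

theorem exp_neg_half_ge : 1 / 2 ≤ Real.exp (-(1 / 2)) := by
  have := Real.add_one_le_exp (-(1 / 2) : ℝ)
  linarith

theorem Par2.a_ge (h : Par2 a κ L N) : 37 ≤ a := by
  have h1 := h.hL1
  have h2 := h.haL
  nlinarith

theorem Par2.kL (h : Par2 a κ L N) : κ * L ^ 2 ≤ 1 := by
  have h1 := h.a_ge
  have h2 := h.h3
  have h3 := h.hκ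
  have h4 : 0 ≤ κ * L ^ 2 := by positivity
  nlinarith

theorem Par2.ell_ge (h : Par2 a κ L N) {s : ℝ} (hs : s ∈ Icc (-L) L) : a - 1 / 2 ≤ ell a κ s := by
  have h1 : s ^ 2 ≤ L ^ 2 := sq_le_sq' hs.1 hs.2
  have h2 := h.kL
  have h3 := h.hκ
  unfold ell
  nlinarith

theorem Par2.W_le (h : Par2 a κ L N) {s : ℝ} (hs : s ∈ Icc (-L) L) :
    W a (ell a κ s) ≤ 2 * pg a := by
  have h1 : s ^ 2 ≤ L ^ 2 := sq_le_sq' hs.1 hs.2
  have h2 := h.h3
  have h3 := h.hκ
  have ha := h.ha
  have hl := h.ell_pos hs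
  have hle := h.ell_le s
  rw [W_eq (by rw [abs_of_pos hl, abs_of_pos ha]; exact hle)]
  unfold pg
  have e1 : -(ell a κ s ^ 2) / 2 ≤ 1 / 2 + -(a ^ 2) / 2 := by
    unfold ell
    have h4 : κ * s ^ 2 * a ≤ 1 := by
      calc κ * s ^ 2 * a ≤ κ * L ^ 2 * a := by gcongr
        _ ≤ 1 := h2
    nlinarith [sq_nonneg (κ * s ^ 2)]
  calc Real.exp (-(ell a κ s ^ 2) / 2) ≤ Real.exp (1 / 2 + -(a ^ 2) / 2) := Real.exp_le_exp.2 e1
    _ = Real.exp (1 / 2) * Real.exp (-(a ^ 2) / 2) := Real.exp_add _ _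
    _ ≤ 2 * Real.exp (-(a ^ 2) / 2) := by
      have := exp_half_le
      gcongr

theorem Par2.kpg (h : Par2 a κ L N) : κ * pg a = E a a / N := by
  have h1 := h.hN
  have h2 := h.Npos
  field_simp
  linarith

theorem Par2.Ea_pos (h : Par2 a κ L N) : 0 < E a a := E_pos h.ha

theorem Par2.ee_ge (h : Par2 a κ L N) {s : ℝ} (hs : s ∈ Icc (-L) L) :
    E a a * (1 - s ^ 2 / N) ≤ ee a κ s := by
  have hl := h.ell_pos hs
  have h1 := E_tangent (a := a) hl.le h.ha.le
  have h2 := h.W_le hs
  have h3 := h.hκ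
  have h4 : a - ell a κ s = κ * s ^ 2 / 2 := by unfold ell; ring
  have h5 := h.kpg
  rw [h4] at h1
  have h6 : W a (ell a κ s) * (κ * s ^ 2 / 2) ≤ 2 * pg a * (κ * s ^ 2 / 2) := by gcongr
  have h7 : 2 * pg a * (κ * s ^ 2 / 2) = (κ * pg a) * s ^ 2 := by ring
  rw [h7, h5] at h6
  have h8 : E a a * (1 - s ^ 2 / N) = E a a - E a a / N * s ^ 2 := by ring
  rw [h8]
  unfold ee
  linarith

theorem Par2.ee_le (h : Par2 a κ L N) {s : ℝ} (hs : s ∈ Icc (-L) L) :
    ee a κ s ≤ E a a * (1 - s ^ 2 / (2 * N)) := by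
  have hl := h.ell_pos hs
  have h1 := E_tangent (a := a) h.ha.le hl.le
  have h3 := h.hκ
  have h4 : ell a κ s - a = -(κ * s ^ 2 / 2) := by unfold ell; ring
  have h5 := h.kpg
  have h6 : W a a = pg a := W_eq le_rfl
  rw [h4, h6] at h1
  have h8 : E a a * (1 - s ^ 2 / (2 * N)) = E a a - E a a / N * s ^ 2 / 2 := by ring
  rw [h8, ← h5]
  unfold ee
  linarith

theorem Par2.eeN_le (h : Par2 a κ L N) {s : ℝ} (hs : s ∈ Icc (-L) L) :
    ee a κ s ^ N ≤ E a a ^ N * pg s := by
  have h1 := h.ee_le hs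
  have h2 := h.Npos
  have h3 := h.Ea_pos
  have h4 : 1 - s ^ 2 / (2 * N) ≤ Real.exp (-(s ^ 2 / (2 * N))) := Real.one_sub_le_exp_neg _
  have h5 : ee a κ s ≤ E a a * Real.exp (-(s ^ 2 / (2 * N))) := h1.trans (by gcongr)
  calc ee a κ s ^ N ≤ (E a a * Real.exp (-(s ^ 2 / (2 * N)))) ^ N := by
        have := h.ee_pos hs
        gcongr
    _ = E a a ^ N * pg s := by
      rw [mul_pow, ← Real.exp_nat_mul]
      unfold pg
      congr 2
      field_simp

theorem Par2.eeN_ge (h : Par2 a κ L N) {s : ℝ} (hs : s ∈ Icc (-1 : ℝ) 1) :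
    E a a ^ N * (1 - s ^ 2) ≤ ee a κ s ^ N := by
  have hL := h.hL1
  have hs' : s ∈ Icc (-L) L := ⟨by linarith [hs.1], by linarith [hs.2]⟩
  have h1 := h.ee_ge hs'
  have h2 := h.Npos
  have h3 := h.Ea_pos
  have h4 : (1 : ℝ) ≤ N := by
    have : 0 < N := by exact_mod_cast h2
    exact_mod_cast this
  have h5 : s ^ 2 ≤ 1 := by
    have := sq_le_sq' hs.1 hs.2
    linarith
  have h6 : s ^ 2 / N ≤ 1 := by
    rw [div_le_one h2]
    linarith
  have h7 := one_add_mul_le_pow (a := -(s ^ 2 / N)) (by linarith) N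
  have h8 : (1 : ℝ) + N * -(s ^ 2 / N) = 1 - s ^ 2 := by
    field_simp
    ring
  rw [h8, ← sub_eq_add_neg] at h7
  calc E a a ^ N * (1 - s ^ 2) ≤ E a a ^ N * (1 - s ^ 2 / N) ^ N := by gcongr
    _ = (E a a * (1 - s ^ 2 / N)) ^ N := by rw [mul_pow]
    _ ≤ ee a κ s ^ N := by
      have : 0 ≤ E a a * (1 - s ^ 2 / N) := by
        have := sub_nonneg.2 h6
        positivity
      gcongr

theorem pg_total : ∫ x, pg x = Real.sqrt (2 * Real.pi) := by
  have h := integral_gaussian (1 / 2)
  have h1 : ∀ x : ℝ, pg x = Real.exp (-(1 / 2) * x ^ 2) := by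
    intro x
    unfold pg
    congr 1
    ring
  simp_rw [h1]
  rw [h]
  congr 1
  ring

theorem sqrt_le : Real.sqrt (2 * Real.pi) ≤ 3 := by
  rw [Real.sqrt_le_left (by norm_num)]
  have := Real.pi_lt_four
  linarith

theorem pg_int : Integrable pg := by
  have h1 : pg = fun x : ℝ => Real.exp (-(1 / 2) * x ^ 2) := by
    funext x
    unfold pg
    congr 1
    ring
  rw [h1]
  exact integrable_exp_neg_mul_sq (by norm_num)

theorem pg_interval {x y : ℝ} (hxy : x ≤ y) : ∫ t in x..y, pg t ≤ 3 := by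
  rw [intervalIntegral.integral_of_le hxy]
  refine (setIntegral_le_integral pg_int (Eventually.of_forall fun x => (pg_pos x).le)).trans ?_
  rw [pg_total]
  exact sqrt_le

theorem Par2.A_le (h : Par2 a κ L N) : ∫ s in (-L)..L, ee a κ s ^ N ≤ 3 * E a a ^ N := by
  have hL := h.hL
  have h3 := h.Ea_pos
  have h1 : ∫ s in (-L)..L, ee a κ s ^ N ≤ ∫ s in (-L)..L, E a a ^ N * pg s := by
    apply intervalIntegral.integral_mono_on (by linarith)
    · exact ((ee_cont a κ).pow N).intervalIntegrable _ _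
    · exact (continuous_const.mul pg_cont).intervalIntegrable _ _
    · intro s hs
      exact h.eeN_le hs
  rw [intervalIntegral.integral_const_mul] at h1
  have h2 := pg_interval (x := -L) (y := L) (by linarith)
  have : E a a ^ N * ∫ s in (-L)..L, pg s ≤ E a a ^ N * 3 := by gcongr
  linarith

theorem twoE_le {r : ℝ} (h0 : 0 ≤ r) (hr : r ≤ |a|) : 2 * E a r ≤ 3 := by
  rw [← int_W]
  have h1 : ∫ x in (-r)..r, W a x = ∫ x in (-r)..r, pg x := by
    apply intervalIntegral.integral_congr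
    intro x hx
    rw [uIcc_of_le (by linarith)] at hx
    exact W_eq ((abs_le.2 hx).trans hr)
  rw [h1]
  exact pg_interval (by linarith)

theorem Hv_zero (a r : ℝ) : Hv a 0 r = E a r := by
  unfold Hv
  simp only [zero_mul, neg_zero, Real.exp_zero, one_mul]
  rw [int_W]
  ring

/-- lower bound for the variance of the first coordinate -/
theorem Par2.var0 (h : Par2 a κ L N) : 1 / 12 ≤ ∫ x, x 0 ^ 2 ∂(PM a κ L N) := by
  have h1 := tilt_int h.toPar (φ := fun s => s ^ 2) (by fun_prop) 0 0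
  simp only [zero_mul, neg_zero, sub_zero, Real.exp_zero, mul_one, one_mul, Hv_zero] at h1
  change _ = (∫ s in (-L)..L, s ^ 2 * ee a κ s ^ N) / _ at h1
  rw [h1]
  have hA := h.intpos
  have hA2 := h.A_le
  have h3 := h.Ea_pos
  have hL := h.hL1
  rw [le_div_iff₀ hA]
  have hc : Continuous fun s : ℝ => s ^ 2 * ee a κ s ^ N :=
    (continuous_id.pow 2).mul ((ee_cont a κ).pow N)
  have e1 : ∫ s in (-1 : ℝ)..1, s ^ 2 * ee a κ s ^ N ≤ ∫ s in (-L)..L, s ^ 2 * ee a κ s ^ N := by
    apply intervalIntegral.integral_mono_interval (by linarith) (by norm_num) hL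
    · rw [Filter.EventuallyLE, ae_restrict_iff' measurableSet_Ioc]
      refine Eventually.of_forall fun s hs => ?_
      have := h.ee_pos (s := s) ⟨hs.1.le, hs.2⟩
      simp only [Pi.zero_apply]
      positivity
    · exact hc.intervalIntegrable _ _
  have e2 : ∫ s in (-1 : ℝ)..1, E a a ^ N * (s ^ 2 - s ^ 4) ≤
      ∫ s in (-1 : ℝ)..1, s ^ 2 * ee a κ s ^ N := by
    apply intervalIntegral.integral_mono_on (by norm_num)
    · apply Continuous.intervalIntegrable
      fun_prop
    · exact hc.intervalIntegrable _ _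
    · intro s hs
      have := h.eeN_ge hs
      have h5 := mul_le_mul_of_nonneg_left this (sq_nonneg s)
      nlinarith
  have e3 : ∫ s in (-1 : ℝ)..1, E a a ^ N * (s ^ 2 - s ^ 4) = E a a ^ N * (4 / 15) := by
    rw [intervalIntegral.integral_const_mul, intervalIntegral.integral_sub, integral_pow,
      integral_pow]
    · norm_num
    · exact (continuous_id.pow 2).intervalIntegrable _ _
    · exact (continuous_id.pow 4).intervalIntegrable _ _
  have h6 : 0 < E a a ^ N := by positivity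
  nlinarith

/-- lower bound for the variances of the other coordinates -/
theorem Par2.var1 (h : Par2 a κ L N) (i : Fin N) : 1 / 9 ≤ ∫ x, x i.succ ^ 2 ∂(PM a κ L N) := by
  rw [second_moment h.toPar]
  have hA := h.intpos
  have hL := h.hL
  rw [le_div_iff₀ hA, ← intervalIntegral.integral_const_mul]
  have hcin : Continuous fun s : ℝ => ∫ x in (-(ell a κ s))..(ell a κ s), x ^ 2 * W a x := by
    have hw : Continuous fun x : ℝ => x ^ 2 * W a x := (continuous_id.pow 2).mul (W_cont a)
    have e1 : ∀ s, ∫ x in (-(ell a κ s))..(ell a κ s), x ^ 2 * W a x =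
        (∫ x in (0 : ℝ)..(ell a κ s), x ^ 2 * W a x) - ∫ x in (0 : ℝ)..(-(ell a κ s)), x ^ 2 * W a x :=
      fun s => (prim_sub hw 0 (-(ell a κ s)) (ell a κ s)).symm
    simp_rw [e1]
    have hP : Continuous fun r : ℝ => ∫ x in (0 : ℝ)..r, x ^ 2 * W a x :=
      continuous_iff_continuousAt.2 fun x => (prim_hasDerivAt hw 0 x).continuousAt
    exact (hP.comp (ell_cont a κ)).sub (hP.comp (ell_cont a κ).neg)
  apply intervalIntegral.integral_mono_on (by linarith)
  · exact (continuous_const.mul ((ee_cont a κ).pow N)).intervalIntegrable _ _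
  · apply ContinuousOn.intervalIntegrable
    rw [uIcc_of_le (by linarith)]
    apply ContinuousOn.mul
    · apply ContinuousOn.div hcin.continuousOn (continuous_const.mul (ee_cont a κ)).continuousOn
      intro s hs
      exact (mul_pos two_pos (h.ee_pos hs)).ne'
    · exact ((ee_cont a κ).pow N).continuousOn
  · intro s hs
    have he := h.ee_pos hs
    have hl := h.ell_pos hs
    have hlge := h.ell_ge hs
    have ha := h.a_ge
    apply mul_le_mul_of_nonneg_right _ (pow_pos he N).le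
    rw [le_div_iff₀ (by positivity)]
    have e1 : 2 * ee a κ s ≤ 3 := twoE_le hl.le (by rw [abs_of_pos h.ha]; exact h.ell_le s)
    have e2 : ∫ x in (-1 : ℝ)..1, x ^ 2 * W a x ≤
        ∫ x in (-(ell a κ s))..(ell a κ s), x ^ 2 * W a x := by
      apply intervalIntegral.integral_mono_interval (by linarith) (by norm_num) (by linarith)
      · refine Eventually.of_forall fun s => ?_
        have := W_pos a s
        simp only [Pi.zero_apply]
        positivity
      · exact ((continuous_id.pow 2).mul (W_cont a)).intervalIntegrable _ _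
    have e3 : ∫ x in (-1 : ℝ)..1, x ^ 2 * (1 / 2) ≤ ∫ x in (-1 : ℝ)..1, x ^ 2 * W a x := by
      apply intervalIntegral.integral_mono_on (by norm_num)
      · apply Continuous.intervalIntegrable
        fun_prop
      · exact ((continuous_id.pow 2).mul (W_cont a)).intervalIntegrable _ _
      · intro x hx
        apply mul_le_mul_of_nonneg_left _ (sq_nonneg x)
        have hx1 : |x| ≤ 1 := abs_le.2 hx
        rw [W_eq (hx1.trans (by rw [abs_of_pos h.ha]; linarith))]
        refine exp_neg_half_ge.trans ?_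
        unfold pg
        apply Real.exp_le_exp.2
        have : x ^ 2 ≤ 1 := by
          have := sq_le_sq' hx.1 hx.2
          linarith
        linarith
    have e4 : ∫ x in (-1 : ℝ)..1, x ^ 2 * (1 / 2) = (1 / 3 : ℝ) := by
      rw [intervalIntegral.integral_mul_const, integral_pow]
      norm_num
    linarith

end Pool.Agent.X166.LT
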